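import Pool.Agent.H58.BP.Sep

/-!
# The box power of `ω + 1`: supports, tubes and the order by extension
-/

set_option autoImplicit false

open Topology Set Cardinal

namespace Pool.Agent.H60.BXP

open Pool.Agent.H96.BN Pool.Agent.H58.BP

/-- the set of the infinite coordinates -/
def supp (x : ℕ → ℕ∞) : Set ℕ := {n | x n = ⊤}

/-- `z` extends `x`, up to finitely many places -/
def Ext (x z : ℕ → ℕ∞) : Prop := ∃ k, ∀ n, k ≤ n → x n ≠ ⊤ → z n = x n

theorem Ext.refl (x : ℕ → ℕ∞) : Ext x x := ⟨0, fun _ _ _ => rfl⟩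

theorem Ext.trans {x y z : ℕ → ℕ∞} (h : Ext x y) (h' : Ext y z) : Ext x z := by
  obtain ⟨k, hk⟩ := h
  obtain ⟨k', hk'⟩ := h'
  refine ⟨max k k', fun n hn hx => ?_⟩
  have h1 := hk n ((le_max_left _ _).trans hn) hx
  rw [hk' n ((le_max_right _ _).trans hn) (by rw [h1]; exact hx), h1]

theorem Ext.antisymm {x y : ℕ → ℕ∞} (h : Ext x y) (h' : Ext y x) : Eqf x y := by
  obtain ⟨k, hk⟩ := h
  obtain ⟨k', hk'⟩ := h'
  refine ⟨max k k', fun n hn => ?_⟩
  by_cases hx : x n = ⊤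
  · by_cases hy : y n = ⊤
    · rw [hx, hy]
    · exact hk' n ((le_max_right _ _).trans hn) hy
  · exact (hk n ((le_max_left _ _).trans hn) hx).symm

theorem ext_of_mem {x z : ℕ → ℕ∞} {f : ℕ → ℕ} (h : z ∈ tbs x f) : Ext x z := by
  obtain ⟨k, hk⟩ := h
  exact ⟨k, fun n hn => (hk n hn).1⟩

theorem tbs_anti (z : ℕ → ℕ∞) {f g : ℕ → ℕ} (h : ∀ n, f n ≤ g n) : tbs z g ⊆ tbs z f := by
  rintro w ⟨k, hk⟩
  exact ⟨k, tb_mono z (fun n _ => h n) hk⟩

theorem tbs_congr {x z : ℕ → ℕ∞} (f : ℕ → ℕ) (h : Eqf x z) : tbs x f = tbs z f := by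
  have key : ∀ {x z : ℕ → ℕ∞}, Eqf x z → tbs x f ⊆ tbs z f := by
    rintro x z ⟨k, hk⟩ w ⟨k', hk'⟩
    refine ⟨max k k', fun n hn => ?_⟩
    rw [← hk n ((le_max_left _ _).trans hn)]
    exact hk' n ((le_max_right _ _).trans hn)
  exact Subset.antisymm (key h) (key h.symm)

/-- a point between the centre and a point of the tube is in the tube -/
theorem mem_tbs_between {x y z : ℕ → ℕ∞} {f : ℕ → ℕ} (hxy : Ext x y) (hyz : Ext y z)
    (hz : z ∈ tbs x f) : y ∈ tbs x f := by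
  obtain ⟨k, hk⟩ := hxy
  obtain ⟨k', hk'⟩ := hyz
  obtain ⟨k'', hk''⟩ := hz
  refine ⟨max k (max k' k''), fun n hn => ?_⟩
  have h1 : k ≤ n := (le_max_left _ _).trans hn
  have h2 : k' ≤ n := ((le_max_left _ _).trans (le_max_right _ _)).trans hn
  have h3 : k'' ≤ n := ((le_max_right _ _).trans (le_max_right _ _)).trans hn
  refine ⟨hk n h1, fun hx => ?_⟩
  by_cases hy : y n = ⊤
  · rw [hy]
    exact ENat.natCast_lt_top _
  · rw [← hk' n h2 hy]
    exact (hk'' n h3).2 hx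

theorem finite_bound {S : Set ℕ} (h : S.Finite) : ∃ k, ∀ n, k ≤ n → n ∉ S := by
  obtain ⟨b, hb⟩ := h.bddAbove
  exact ⟨b + 1, fun n hn hS => absurd (hb hS) (by omega)⟩

/-- if two tubes meet then one of the centres is in the other tube -/
theorem mem_or_mem {x z : ℕ → ℕ∞} {f g : ℕ → ℕ}
    (hD : (supp z \ supp x).Infinite → (supp x \ supp z).Infinite → Disjoint (tbs x f) (tbs z g))
    (hne : (tbs x f ∩ tbs z g).Nonempty) : z ∈ tbs x f ∨ x ∈ tbs z g := by
  obtain ⟨w, ⟨k, hk⟩, ⟨k', hk'⟩⟩ := hne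
  by_cases h1 : (supp z \ supp x).Infinite
  · by_cases h2 : (supp x \ supp z).Infinite
    · exact absurd ⟨k', hk'⟩ (Set.disjoint_left.1 (hD h1 h2) ⟨k, hk⟩)
    · rw [Set.not_infinite] at h2
      obtain ⟨k2, hk2⟩ := finite_bound h2
      refine Or.inr ⟨max k2 (max k k'), fun n hn => ?_⟩
      have e1 : k2 ≤ n := (le_max_left _ _).trans hn
      have e2 : k ≤ n := ((le_max_left _ _).trans (le_max_right _ _)).trans hn
      have e3 : k' ≤ n := ((le_max_right _ _).trans (le_max_right _ _)).trans hn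
      refine ⟨fun hz => ?_, fun hz => ?_⟩
      · have hx : x n ≠ ⊤ := fun hx => hk2 n e1 ⟨hx, hz⟩
        rw [← (hk n e2).1 hx, (hk' n e3).1 hz]
      · by_cases hx : x n = ⊤
        · rw [hx]
          exact ENat.natCast_lt_top _
        · rw [← (hk n e2).1 hx]
          exact (hk' n e3).2 hz
  · rw [Set.not_infinite] at h1
    obtain ⟨k2, hk2⟩ := finite_bound h1
    refine Or.inl ⟨max k2 (max k k'), fun n hn => ?_⟩
    have e1 : k2 ≤ n := (le_max_left _ _).trans hn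
    have e2 : k ≤ n := ((le_max_left _ _).trans (le_max_right _ _)).trans hn
    have e3 : k' ≤ n := ((le_max_right _ _).trans (le_max_right _ _)).trans hn
    refine ⟨fun hx => ?_, fun hx => ?_⟩
    · have hz : z n ≠ ⊤ := fun hz => hk2 n e1 ⟨hz, hx⟩
      rw [← (hk' n e3).1 hz, (hk n e2).1 hx]
    · by_cases hz : z n = ⊤
      · rw [hz]
        exact ENat.natCast_lt_top _
      · rw [← (hk' n e3).1 hz]
        exact (hk n e2).2 hx

/-- the closure of a saturated set is saturated, in the form: a tube around the point -/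
theorem tube_disjoint {x : ℕ → ℕ∞} {g : ℕ → ℕ} {M : Set (ℕ → ℕ∞)} (h : Disjoint (tbs x g) M) :
    Disjoint (tbs x g) (closure[boxTop] M) := by
  exact @Disjoint.closure_right _ boxTop _ _ h (isOpen_tbs x g)

end Pool.Agent.H60.BXP
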