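import Pool.Agent.H60.BXP.Basic

/-!
# The box power of `ω + 1`: chains of restrictions of a point

If a chain of restrictions of a point comes arbitrarily close to the restriction `x` then every
family of fewer than `𝔡` functions is bounded.
-/

set_option autoImplicit false

open Topology Set Cardinal

namespace Pool.Agent.H60.BXP

open Pool.Agent.H96.BN Pool.Agent.H58.BP

/-- every family of fewer than `𝔡` functions is bounded (`𝔟 = 𝔡`) -/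
def AllBdd : Prop := ∀ G : Set (ℕ → ℕ), #G < dd →
  ∃ h : ℕ → ℕ, ∀ g ∈ G, ∃ k, ∀ n, k ≤ n → g n ≤ h n

/-- the least nondecreasing function above `h` -/
def up (h : ℕ → ℕ) (n : ℕ) : ℕ := (Finset.range (n + 1)).sup h

theorem le_up (h : ℕ → ℕ) {i n : ℕ} (hi : i ≤ n) : h i ≤ up h n :=
  Finset.le_sup (Finset.mem_range.2 (by omega))

theorem up_mono (h : ℕ → ℕ) {i n : ℕ} (hi : i ≤ n) : up h i ≤ up h n :=
  Finset.sup_mono (Finset.range_mono (by omega))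

theorem bdd_of_chain (x y : ℕ → ℕ∞) (E : Set (ℕ → ℕ∞)) (h1 : ∀ x' ∈ E, Ext x x')
    (h2 : ∀ x' ∈ E, Ext x' y) (h3 : ∀ x' ∈ E, ∀ x'' ∈ E, Ext x' x'' ∨ Ext x'' x')
    (h4 : ∀ x' ∈ E, ¬ Eqf x x') (h5 : ∀ h, ∃ x' ∈ E, x' ∈ tbs x h) : AllBdd := by
  classical
  have hB : ∀ x' ∈ E, {n | x n = ⊤ ∧ x' n ≠ ⊤}.Infinite := by
    intro x' hx' hfin
    obtain ⟨k, hk⟩ := finite_bound hfin
    obtain ⟨k', hk'⟩ := h1 x' hx'
    refine h4 x' hx' ((h1 x' hx').antisymm ⟨max k k', fun n hn hn2 => ?_⟩)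
    have e1 : k ≤ n := (le_max_left _ _).trans hn
    have e2 : k' ≤ n := (le_max_right _ _).trans hn
    have e3 : x n ≠ ⊤ := fun hx => hk n e1 ⟨hx, hn2⟩
    exact (hk' n e2 e3).symm
  have hnx : ∀ (x' : ℕ → ℕ∞) (k : ℕ), ∃ m, x' ∈ E → k ≤ m ∧ x m = ⊤ ∧ x' m ≠ ⊤ := by
    intro x' k
    by_cases hx' : x' ∈ E
    · obtain ⟨m, hm, hkm⟩ := (hB x' hx').exists_gt k
      exact ⟨m, fun _ => ⟨hkm.le, hm⟩⟩
    · exact ⟨0, fun h => absurd h hx'⟩
  choose nx hnx using hnx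
  set e : (ℕ → ℕ∞) → ℕ → ℕ := fun x' k => (y (nx x' k)).toNat with he
  have hgood : ∀ x' ∈ E, ∀ h, x' ∈ tbs x h →
      ∃ k, ∀ n, k ≤ n → x n = ⊤ → x' n ≠ ⊤ → (h n : ℕ∞) < y n := by
    rintro x' hx' h ⟨k, hk⟩
    obtain ⟨k', hk'⟩ := h2 x' hx'
    refine ⟨max k k', fun n hn hx hx'n => ?_⟩
    rw [hk' n ((le_max_right _ _).trans hn) hx'n]
    exact (hk n ((le_max_left _ _).trans hn)).2 hx
  have hanti : ∀ x' x'', Ext x' x'' → ∀ h : ℕ → ℕ,
      (∃ k, ∀ n, k ≤ n → x n = ⊤ → x'' n ≠ ⊤ → (h n : ℕ∞) < y n) →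
      ∃ k, ∀ n, k ≤ n → x n = ⊤ → x' n ≠ ⊤ → (h n : ℕ∞) < y n := by
    rintro x' x'' ⟨k', hk'⟩ h ⟨k, hk⟩
    refine ⟨max k k', fun n hn hx hx'n => hk n ((le_max_left _ _).trans hn) hx ?_⟩
    rw [hk' n ((le_max_right _ _).trans hn) hx'n]
    exact hx'n
  have hdomi : ∀ x' ∈ E, ∀ h : ℕ → ℕ,
      (∃ k, ∀ n, k ≤ n → x n = ⊤ → x' n ≠ ⊤ → (up h n : ℕ∞) < y n) →
      ∃ k, ∀ n, k ≤ n → h n ≤ e x' n := by
    rintro x' hx' h ⟨k, hk⟩
    obtain ⟨k', hk'⟩ := h2 x' hx'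
    refine ⟨max k k', fun n hn => ?_⟩
    obtain ⟨a1, a2, a3⟩ := hnx x' n hx'
    have b1 : k ≤ nx x' n := ((le_max_left _ _).trans hn).trans a1
    have b2 : k' ≤ nx x' n := ((le_max_right _ _).trans hn).trans a1
    have b3 := hk _ b1 a2 a3
    have b4 : y (nx x' n) ≠ ⊤ := by
      rw [hk' _ b2 a3]
      exact a3
    rw [← ENat.natCast_toNat b4] at b3
    have b5 : up h (nx x' n) < (y (nx x' n)).toNat := by exact_mod_cast b3
    exact (le_up h a1).trans b5.le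
  intro G hG
  choose X hXE hXt using fun g : ℕ → ℕ => h5 (up g)
  by_cases hc : ∃ x0 ∈ E, ∀ g ∈ G, Ext x0 (X g)
  · obtain ⟨x0, hx0, hx0g⟩ := hc
    refine ⟨e x0, fun g hg => ?_⟩
    exact hdomi x0 hx0 g (hanti x0 (X g) (hx0g g hg) (up g) (hgood (X g) (hXE g) (up g) (hXt g)))
  · push Not at hc
    exfalso
    have hD : Dom ((fun g => e (X g)) '' G) := by
      intro f
      obtain ⟨x0, hx0, hx0t⟩ := h5 (up f)
      obtain ⟨g, hg, hne⟩ := hc x0 hx0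
      have hext : Ext (X g) x0 := (h3 x0 hx0 (X g) (hXE g)).resolve_left hne
      refine ⟨e (X g), mem_image_of_mem _ hg, ?_⟩
      exact hdomi (X g) (hXE g) f (hanti (X g) x0 hext (up f) (hgood x0 hx0 (up f) hx0t))
    exact absurd ((dd_le hD).trans mk_image_le) (not_le.2 hG)

/-- in the case `𝔟 = 𝔡` there is a ranking of all points -/
theorem rank_of_allBdd (hb : AllBdd) :
    ∃ ρ : (ℕ → ℕ∞) → Ordinal.{0}, ∀ z : ℕ → ℕ∞, ∃ h, ∀ y : ℕ → ℕ∞, ρ y ≤ ρ z → Catch h y z := by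
  classical
  obtain ⟨F, hF, hFd⟩ : ∃ F : Set (ℕ → ℕ), Dom F ∧ #F = dd := by
    have h0 : dd ∈ {κ | ∃ F : Set (ℕ → ℕ), Dom F ∧ #F = κ} :=
      csInf_mem ⟨#(univ : Set (ℕ → ℕ)), univ, fun f => ⟨f, mem_univ _, 0, fun _ _ => le_rfl⟩, rfl⟩
    exact h0
  obtain ⟨r, wo, hr⟩ := Cardinal.exists_ord_eq F
  have hex : ∀ x : ℕ → ℕ∞, ∃ g : F, x ∈ Bd g.1 := by
    intro x
    obtain ⟨g, hg, k, hk⟩ := hF fun n => (x n).toNat
    refine ⟨⟨g, hg⟩, k, fun n hn hx => ?_⟩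
    rw [← ENat.natCast_toNat hx]
    exact_mod_cast hk n hn
  choose gx hgx using hex
  refine ⟨fun x => Ordinal.typein r (gx x), fun z => ?_⟩
  have h1 : #{g : ℕ → ℕ | ∃ h : g ∈ F, Ordinal.typein r ⟨g, h⟩ ≤ Ordinal.typein r (gx z)} < dd := by
    have h2 : #{g : ℕ → ℕ | ∃ h : g ∈ F, Ordinal.typein r ⟨g, h⟩ ≤ Ordinal.typein r (gx z)} ≤
        #{g : F // r g (gx z)} + 1 := by
      have h3 : {g : ℕ → ℕ | ∃ h : g ∈ F, Ordinal.typein r ⟨g, h⟩ ≤ Ordinal.typein r (gx z)} ⊆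
          (Subtype.val '' {g : F | r g (gx z)}) ∪ {(gx z).1} := by
        rintro g ⟨hg, hle⟩
        rcases hle.lt_or_eq with h | h
        · exact Or.inl ⟨⟨g, hg⟩, (Ordinal.typein_lt_typein r).1 h, rfl⟩
        · refine Or.inr ?_
          have h4 := Ordinal.typein_injective r h
          rw [mem_singleton_iff, ← h4]
      refine (mk_le_mk_of_subset h3).trans ((mk_union_le _ _).trans ?_)
      refine add_le_add ?_ ?_
      · exact mk_image_le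
      · rw [mk_singleton]
    refine lt_of_le_of_lt h2 ?_
    have h3 := Ordinal.typein_lt_type r (gx z)
    rw [← hr, Cardinal.lt_ord, hFd] at h3
    have h4 : (Ordinal.typein r (gx z)).card = #{g : F // r g (gx z)} := rfl
    rw [h4] at h3
    have h5 : ℵ₀ ≤ dd := by
      by_contra hcon
      rw [not_le, ← hFd, Cardinal.lt_aleph0_iff_set_finite] at hcon
      -- finite families do not dominate
      obtain ⟨g, hg, k, hk⟩ := hF fun n => (hcon.toFinset.sup fun f => f n) + 1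
      have h6 := hk k le_rfl
      have h7 : g k ≤ hcon.toFinset.sup fun f => f k :=
        Finset.le_sup (f := fun f : ℕ → ℕ => f k) (hcon.mem_toFinset.2 hg)
      omega
    exact Cardinal.add_lt_of_lt h5 h3 (lt_of_lt_of_le one_lt_aleph0 h5)
  obtain ⟨h, hh⟩ := hb _ h1
  refine ⟨h, fun y hy => ?_⟩
  obtain ⟨k, hk⟩ := hh (gx y).1 ⟨(gx y).2, hy⟩
  obtain ⟨k', hk'⟩ := hgx y
  refine catch_bd ⟨max k k', fun n hn hyn => ?_⟩ z
  refine (hk' n ((le_max_right _ _).trans hn) hyn).trans ?_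
  exact_mod_cast hk n ((le_max_left _ _).trans hn)

end Pool.Agent.H60.BXP
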