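import Pool.Agent.H60.BXP.Basic

/-!
# The box power of `ω + 1`: disjoint tubes around incomparable points
-/

set_option autoImplicit false

open Topology Set Cardinal

namespace Pool.Agent.H60.BXP

open Pool.Agent.H96.BN Pool.Agent.H58.BP

/-- `x(m) ≤ g(n, x(n))` for almost all finite coordinates `m < n` -/
def Tame (g : ℕ → ℕ → ℕ) (x : ℕ → ℕ∞) : Prop :=
  ∃ k, ∀ m n, k ≤ m → m < n → x m ≠ ⊤ → x n ≠ ⊤ → x m ≤ (g n (x n).toNat : ℕ∞)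

open Classical in
/-- the next finite coordinate -/
noncomputable def nf (z : ℕ → ℕ∞) (n : ℕ) : ℕ := if h : ∃ m, n < m ∧ z m ≠ ⊤ then Nat.find h else n

theorem nf_spec {z : ℕ → ℕ∞} (h : {n | z n ≠ ⊤}.Infinite) (n : ℕ) : n < nf z n ∧ z (nf z n) ≠ ⊤ := by
  classical
  have h1 : ∃ m, n < m ∧ z m ≠ ⊤ := by
    obtain ⟨m, hm, hnm⟩ := h.exists_gt n
    exact ⟨m, hnm, hm⟩
  unfold nf
  rw [dif_pos h1]
  exact Nat.find_spec h1

/-- the function of the tube around `z` -/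
noncomputable def FF (g : ℕ → ℕ → ℕ) (z : ℕ → ℕ∞) (h : ℕ → ℕ) (n : ℕ) : ℕ :=
  (Finset.range (max n (max (h n) (nf z n)) + 1)).sup fun i => max (z i).toNat (g i (z i).toNat)

theorem le_FF (g : ℕ → ℕ → ℕ) (z : ℕ → ℕ∞) (h : ℕ → ℕ) {n i : ℕ}
    (hi : i ≤ n ∨ i ≤ h n ∨ i ≤ nf z n) :
    (z i).toNat ≤ FF g z h n ∧ g i (z i).toNat ≤ FF g z h n := by
  have h1 : i ∈ Finset.range (max n (max (h n) (nf z n)) + 1) := by
    rw [Finset.mem_range]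
    rcases hi with h' | h' | h'
    · have := le_max_left n (max (h n) (nf z n))
      omega
    · have := (le_max_left (h n) (nf z n)).trans (le_max_right n (max (h n) (nf z n)))
      omega
    · have := (le_max_right (h n) (nf z n)).trans (le_max_right n (max (h n) (nf z n)))
      omega
  have h2 := Finset.le_sup (f := fun i => max (z i).toNat (g i (z i).toNat)) h1
  exact ⟨(le_max_left _ _).trans h2, (le_max_right _ _).trans h2⟩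

theorem core {g : ℕ → ℕ → ℕ} {y z w : ℕ → ℕ∞} {hy hz f1 f2 : ℕ → ℕ}
    (hf1 : ∀ n, FF g y hy n ≤ f1 n) (hf2 : ∀ n, FF g z hz n ≤ f2 n) (h1 : w ∈ tbs y f1)
    (h2 : w ∈ tbs z f2) : ∃ k, ∀ m n, k ≤ m → m ≤ n → (n ≤ hz m ∨ n ≤ nf z m) → y m ≠ ⊤ →
      z m = ⊤ → y n = ⊤ → z n ≠ ⊤ → False := by
  obtain ⟨k1, hk1⟩ := h1
  obtain ⟨k2, hk2⟩ := h2
  refine ⟨max k1 k2, fun m n hm hmn hn hym hzm hyn hzn => ?_⟩
  have a1 : k1 ≤ m := (le_max_left _ _).trans hm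
  have a2 : k2 ≤ m := (le_max_right _ _).trans hm
  have b1 := (hk1 m a1).1 hym
  have b2 := (hk2 m a2).2 hzm
  have b3 := (hk1 n (a1.trans hmn)).2 hyn
  have b4 := (hk2 n (a2.trans hmn)).1 hzn
  rw [b1, ← ENat.natCast_toNat hym] at b2
  rw [b4, ← ENat.natCast_toNat hzn] at b3
  have c1 : f2 m < (y m).toNat := by exact_mod_cast b2
  have c2 : f1 n < (z n).toNat := by exact_mod_cast b3
  have d1 := (le_FF g z hz (n := m) (i := n) (Or.inr hn)).1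
  have d2 := (le_FF g y hy (n := n) (i := m) (Or.inl hmn)).1
  have e1 := hf1 n
  have e2 := hf2 m
  omega

theorem core_tame {g : ℕ → ℕ → ℕ} {y z w : ℕ → ℕ∞} {hz f1 f2 : ℕ → ℕ}
    (hf2 : ∀ n, FF g z hz n ≤ f2 n) (h1 : w ∈ tbs y f1)
    (h2 : w ∈ tbs z f2) : ∃ k, ∀ m, k ≤ m → m < nf z m → z (nf z m) ≠ ⊤ → y m ≠ ⊤ →
      z m = ⊤ → y (nf z m) ≠ ⊤ → y m ≤ (g (nf z m) (y (nf z m)).toNat : ℕ∞) → False := by
  obtain ⟨k1, hk1⟩ := h1
  obtain ⟨k2, hk2⟩ := h2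
  refine ⟨max k1 k2, fun m hm hmn hzn hym hzm hyn hle => ?_⟩
  have a1 : k1 ≤ m := (le_max_left _ _).trans hm
  have a2 : k2 ≤ m := (le_max_right _ _).trans hm
  have b1 := (hk1 m a1).1 hym
  have b2 := (hk2 m a2).2 hzm
  have b3 := (hk1 _ (a1.trans hmn.le)).1 hyn
  have b4 := (hk2 _ (a2.trans hmn.le)).1 hzn
  have b5 : y (nf z m) = z (nf z m) := b3.symm.trans b4
  rw [b1, ← ENat.natCast_toNat hym] at b2
  rw [b5, ← ENat.natCast_toNat hym] at hle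
  have c1 : f2 m < (y m).toNat := by exact_mod_cast b2
  have c2 : (y m).toNat ≤ g (nf z m) (z (nf z m)).toNat := by exact_mod_cast hle
  have d1 := (le_FF g z hz (n := m) (i := nf z m) (Or.inr (Or.inr le_rfl))).2
  have e2 := hf2 m
  omega

/-- tubes around incomparable points, one of them tame -/
theorem disjoint_of_tame {g : ℕ → ℕ → ℕ} {y z : ℕ → ℕ∞} {hy hz f1 f2 : ℕ → ℕ}
    (ht : Tame g y) (hf1 : ∀ n, FF g y hy n ≤ f1 n) (hf2 : ∀ n, FF g z hz n ≤ f2 n)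
    (hD1 : (supp z \ supp y).Infinite) (hD2 : (supp y \ supp z).Infinite) :
    Disjoint (tbs y f1) (tbs z f2) := by
  rw [Set.disjoint_left]
  intro w hw1 hw2
  obtain ⟨k1, hk1⟩ := core hf1 hf2 hw1 hw2
  obtain ⟨k2, hk2⟩ := core_tame hf2 hw1 hw2
  obtain ⟨k3, hk3⟩ := ht
  obtain ⟨m, hm, hkm⟩ := hD1.exists_gt (max k1 (max k2 k3))
  have a1 : k1 ≤ m := (le_max_left _ _).trans hkm.le
  have a2 : k2 ≤ m := ((le_max_left _ _).trans (le_max_right _ _)).trans hkm.le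
  have a3 : k3 ≤ m := ((le_max_right _ _).trans (le_max_right _ _)).trans hkm.le
  have hzm : z m = ⊤ := hm.1
  have hym : y m ≠ ⊤ := hm.2
  have hfin : {n | z n ≠ ⊤}.Infinite := hD2.mono fun n hn => hn.2
  obtain ⟨b1, b2⟩ := nf_spec hfin m
  by_cases hyn : y (nf z m) = ⊤
  · exact hk1 m (nf z m) a1 b1.le (Or.inr le_rfl) hym hzm hyn b2
  · exact hk2 m a2 b1 b2 hym hzm hyn (hk3 m (nf z m) a3 b1 hym hyn)

/-- tubes around incomparable points, one support caught by the other one -/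
theorem disjoint_of_set {g : ℕ → ℕ → ℕ} {y z : ℕ → ℕ∞} {hy hz f1 f2 : ℕ → ℕ}
    (hf1 : ∀ n, FF g y hy n ≤ f1 n) (hf2 : ∀ n, FF g z hz n ≤ f2 n)
    (hc : {m | (z m = ⊤ ∧ y m ≠ ⊤) ∧ ∃ n, (y n = ⊤ ∧ z n ≠ ⊤) ∧ m ≤ n ∧ n ≤ hz m}.Infinite) :
    Disjoint (tbs y f1) (tbs z f2) := by
  rw [Set.disjoint_left]
  intro w hw1 hw2
  obtain ⟨k1, hk1⟩ := core hf1 hf2 hw1 hw2
  obtain ⟨m, ⟨⟨h1, h2⟩, n, ⟨h3, h4⟩, h5, h6⟩, hkm⟩ := hc.exists_gt k1
  exact hk1 m n hkm.le h5 (Or.inl h6) h2 h1 h3 h4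

/-- tubes around incomparable points with supports covering almost all coordinates -/
theorem disjoint_of_cofinite {g : ℕ → ℕ → ℕ} {y z : ℕ → ℕ∞} {hy hz f1 f2 : ℕ → ℕ}
    (hf1 : ∀ n, FF g y hy n ≤ f1 n) (hf2 : ∀ n, FF g z hz n ≤ f2 n)
    (hD1 : (supp z \ supp y).Infinite) (hD2 : (supp y \ supp z).Infinite)
    (hc : {n | n ∉ supp y ∧ n ∉ supp z}.Finite) : Disjoint (tbs y f1) (tbs z f2) := by
  rw [Set.disjoint_left]
  intro w hw1 hw2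
  obtain ⟨k1, hk1⟩ := core hf1 hf2 hw1 hw2
  obtain ⟨k2, hk2⟩ := finite_bound hc
  obtain ⟨m, hm, hkm⟩ := hD1.exists_gt (max k1 k2)
  have a1 : k1 ≤ m := (le_max_left _ _).trans hkm.le
  have a2 : k2 ≤ m := (le_max_right _ _).trans hkm.le
  have hfin : {n | z n ≠ ⊤}.Infinite := hD2.mono fun n hn => hn.2
  obtain ⟨b1, b2⟩ := nf_spec hfin m
  have hyn : y (nf z m) = ⊤ := by
    by_contra hyn
    exact hk2 (nf z m) (a2.trans b1.le) ⟨hyn, b2⟩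
  exact hk1 m (nf z m) a1 b1.le (Or.inr le_rfl) hm.2 hm.1 hyn b2

end Pool.Agent.H60.BXP
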