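import Pool.Agent.H60.BXP.Rank

/-!
# The box power of `ω + 1`: catching in families with few crossing pairs
-/

set_option autoImplicit false

open Topology Set Cardinal

namespace Pool.Agent.H60.BXP

open Pool.Agent.H96.BN Pool.Agent.H58.BP

theorem exists_catch (𝒲 : Set (Set ℕ))
    (hW : #{W : Set ℕ | W ∈ 𝒲 ∧ dd < #{V : Set ℕ | V ∈ 𝒲 ∧ Cross V W}} < dd) :
    ∃ H : Set ℕ → ℕ → ℕ, ∀ V ∈ 𝒲, ∀ W ∈ 𝒲, (V \ W).Infinite → (W \ V).Infinite →
      ((V ∪ W)ᶜ).Infinite → SC (H V) V W ∨ SC (H W) W V := by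
  classical
  set E0 : Set (Set ℕ) := {W : Set ℕ | W ∈ 𝒲 ∧ dd < #{V : Set ℕ | V ∈ 𝒲 ∧ Cross V W}} with hE0
  set adj : Set ℕ → Set ℕ → Prop := fun a b => a ∈ 𝒲 ∧ a ∉ E0 ∧ b ∈ 𝒲 ∧ b ∉ E0 ∧ Cross a b
    with hadj
  have hadjs : ∀ a b, adj a b → adj b a := fun a b ⟨h1, h2, h3, h4, h5⟩ =>
    ⟨h3, h4, h1, h2, h5.symm⟩
  have hadjc : ∀ a, #{b | adj a b} ≤ dd := by
    intro a
    by_cases ha : a ∈ 𝒲 ∧ a ∉ E0
    · have h1 : ¬ dd < #{V : Set ℕ | V ∈ 𝒲 ∧ Cross V a} := fun h => ha.2 ⟨ha.1, h⟩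
      refine le_trans (mk_le_mk_of_subset ?_) (not_lt.1 h1)
      rintro b ⟨_, _, hb, _, hc⟩
      exact ⟨hb, hc.symm⟩
    · have h1 : {b | adj a b} = ∅ := by
        ext b
        simp only [mem_ofPred_eq, mem_empty_iff_false, iff_false]
        exact fun h => ha ⟨h.1, h.2.1⟩
      rw [h1]
      refine le_trans (le_of_eq (mk_eq_zero _)) zero_le
  set comp : Set ℕ → Set (Set ℕ) := fun a => {b | Relation.ReflTransGen adj a b} with hcomp
  have hcc : ∀ a, #(comp a) ≤ dd := fun a => mk_comp_le aleph0_le_dd hadjc a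
  have hsymm : ∀ {a b}, Relation.ReflTransGen adj a b → Relation.ReflTransGen adj b a := by
    intro a b h
    induction h with
    | refl => exact Relation.ReflTransGen.refl
    | tail _ h2 ih => exact Relation.ReflTransGen.head (hadjs _ _ h2) ih
  have hce : ∀ {a b}, b ∈ comp a → comp b = comp a := by
    intro a b h
    ext c
    exact ⟨fun hc => Relation.ReflTransGen.trans h hc,
      fun hc => Relation.ReflTransGen.trans (hsymm h) hc⟩
  choose ix hix using fun X : Set (Set ℕ) =>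
    (show ∃ i : Set ℕ → II, #X ≤ dd → InjOn i X from by
      by_cases hX : #X ≤ dd
      · obtain ⟨i, hi⟩ := exists_idx X hX
        exact ⟨i, fun _ => hi⟩
      · obtain ⟨i0⟩ := nonempty_II
        exact ⟨fun _ => i0, fun h => absurd h hX⟩)
  obtain ⟨gI, hgI⟩ := exists_gI
  choose η kη hη using fun a : Set ℕ => hgI (nx a)
  set iV : Set ℕ → II := fun a => max (ix (comp a) a) (η a) with hiV
  set Φ : Set ℕ → Set (ℕ → ℕ) := fun V =>
    ((fun (W : Set ℕ) (k : ℕ) => nx (W \ V) (nx (V \ W) k)) '' E0) ∪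
    ((fun (W : Set ℕ) (k : ℕ) => nx (W \ V) (nx (V \ W) k)) ''
      {W | W ∈ comp V ∧ ix (comp V) W ≤ iV V}) ∪
    ((fun (j : II) (k : ℕ) => gI j (nx V k)) '' {j | j ≤ iV V}) with hΦ
  have hΦc : ∀ V, #(Φ V) < dd := by
    intro V
    refine lt_of_le_of_lt (mk_union_le _ _) (Cardinal.add_lt_of_lt aleph0_le_dd
      (lt_of_le_of_lt (mk_union_le _ _) (Cardinal.add_lt_of_lt aleph0_le_dd ?_ ?_)) ?_)
    · exact lt_of_le_of_lt mk_image_le hW
    · exact lt_of_le_of_lt mk_image_le (mk_idx_lt (hix (comp V) (hcc V)) _)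
    · exact lt_of_le_of_lt mk_image_le (mk_Iic_lt _)
  choose H hH using fun V : Set ℕ => catch_of_few (hΦc V)
  refine ⟨H, fun V hV W hW' h1 h2 h3 => ?_⟩
  have key1 : ∀ A B : Set ℕ, (A \ B).Infinite → (B \ A).Infinite →
      (fun k : ℕ => nx (B \ A) (nx (A \ B) k)) ∈ Φ A → SC (H A) A B := by
    intro A B hAB hBA hmem
    refine hH A _ hmem A B ⟨0, fun k _ => ?_⟩
    obtain ⟨a1, a2⟩ := nx_spec hAB k
    obtain ⟨a3, a4⟩ := nx_spec hBA (nx (A \ B) k)
    exact ⟨_, _, a1, a2, a4, a3, le_rfl⟩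
  have key2 : ∀ A B : Set ℕ, (A \ B).Infinite → (B \ A).Infinite → (A ∩ B).Finite →
      η B ≤ iV A → SC (H A) A B := by
    intro A B hAB hBA hfin hle
    obtain ⟨k1, hk1⟩ := finite_bound hfin
    have hA : A.Infinite := hAB.mono sdiff_subset
    have hB : B.Infinite := hBA.mono sdiff_subset
    refine hH A (fun k : ℕ => gI (η B) (nx A k)) (Or.inr ⟨η B, hle, rfl⟩) A B
      ⟨max k1 (kη B), fun k hk => ?_⟩
    obtain ⟨a1, a2⟩ := nx_spec hA k
    obtain ⟨a3, a4⟩ := nx_spec hB (nx A k)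
    have b1 : k1 ≤ nx A k := ((le_max_left _ _).trans hk).trans a1
    have b2 : kη B ≤ nx A k := ((le_max_right _ _).trans hk).trans a1
    refine ⟨nx A k, nx B (nx A k), a1, ⟨a2, fun h => hk1 _ b1 ⟨a2, h⟩⟩,
      ⟨a4, fun h => hk1 _ (b1.trans a3) ⟨h, a4⟩⟩, a3, hη B _ b2⟩
  by_cases hWE : W ∈ E0
  · exact Or.inl (key1 V W h1 h2 (Or.inl (Or.inl ⟨W, hWE, rfl⟩)))
  by_cases hVE : V ∈ E0
  · exact Or.inr (key1 W V h2 h1 (Or.inl (Or.inl ⟨V, hVE, rfl⟩)))
  by_cases hc : W ∈ comp V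
  · have hcVW : comp W = comp V := hce hc
    rcases le_total (iV W) (iV V) with h | h
    · left
      refine key1 V W h1 h2 (Or.inl (Or.inr ⟨W, ⟨hc, ?_⟩, rfl⟩))
      rw [← hcVW]
      exact (le_max_left _ _).trans h
    · right
      refine key1 W V h2 h1 (Or.inl (Or.inr ⟨V, ⟨?_, ?_⟩, rfl⟩))
      · exact hsymm hc
      · rw [hcVW]
        exact (le_max_left _ _).trans h
  · have hfin : (V ∩ W).Finite := by
      by_contra hcon
      apply hc
      exact Relation.ReflTransGen.single ⟨hV, hVE, hW', hWE, hcon, h1, h2, h3⟩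
    rcases le_total (iV W) (iV V) with h | h
    · exact Or.inl (key2 V W h1 h2 hfin ((le_max_right _ _).trans h))
    · exact Or.inr (key2 W V h2 h1 (by rwa [inter_comm]) ((le_max_right _ _).trans h))

end Pool.Agent.H60.BXP
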