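import Pool.Agent.H60.BXP.Rank
import Pool.Agent.H60.BXP.Delta

/-!
# The box power of `ω + 1`: catching values
-/

set_option autoImplicit false

open Topology Set Cardinal

namespace Pool.Agent.H60.BXP

open Pool.Agent.H96.BN Pool.Agent.H58.BP

/-- indices on a set of size at most `𝔡` -/
theorem exists_idx2 {α : Type} (X : Set α) (hX : #X ≤ dd) : ∃ i : α → II, InjOn i X := by
  classical
  rw [← mk_II] at hX
  obtain ⟨e⟩ := hX
  obtain ⟨i0⟩ := nonempty_II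
  refine ⟨fun a => if h : a ∈ X then e ⟨a, h⟩ else i0, fun a ha b hb hab => ?_⟩
  simp only [dif_pos ha, dif_pos hb] at hab
  exact congrArg Subtype.val (e.injective hab)

theorem exists_nondom {Φ : Set (ℕ → ℕ)} (hΦ : #Φ < dd) :
    ∃ h : ℕ → ℕ, ∀ φ ∈ Φ, ∀ K, ∃ k, K ≤ k ∧ φ k < h k := by
  have h1 : ¬ Dom Φ := fun h => absurd (dd_le h) (not_le.2 hΦ)
  unfold Dom at h1
  push Not at h1
  obtain ⟨h0, hh⟩ := h1
  exact ⟨h0, fun φ hφ K => hh φ hφ K⟩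

theorem mk_Iic_prod_lt (i : II) : #{p : II × II | p.1 ≤ i ∧ p.2 ≤ i} < dd := by
  have h1 : {p : II × II | p.1 ≤ i ∧ p.2 ≤ i} = {j : II | j ≤ i} ×ˢ {j : II | j ≤ i} := by
    ext p
    rfl
  rw [h1, Cardinal.mk_setProd]
  exact Cardinal.mul_lt_of_lt aleph0_le_dd (mk_Iic_lt i) (mk_Iic_lt i)

/-- tubes around points, values of `y` caught by the tube of `z` -/
theorem disjoint_of_val {y z : ℕ → ℕ∞} {f1 f2 : ℕ → ℕ}
    (hc : {m | z m = ⊤ ∧ y m ≠ ⊤ ∧ (y m).toNat ≤ f2 m}.Infinite) :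
    Disjoint (tbs y f1) (tbs z f2) := by
  rw [Set.disjoint_left]
  rintro w ⟨k1, hk1⟩ ⟨k2, hk2⟩
  obtain ⟨m, ⟨h1, h2, h3⟩, hkm⟩ := hc.exists_gt (max k1 k2)
  have a1 : k1 ≤ m := (le_max_left _ _).trans hkm.le
  have a2 : k2 ≤ m := (le_max_right _ _).trans hkm.le
  have b1 := (hk1 m a1).1 h2
  have b2 := (hk2 m a2).2 h1
  rw [b1, ← ENat.natCast_toNat h2] at b2
  have c1 : f2 m < (y m).toNat := by exact_mod_cast b2
  omega

end Pool.Agent.H60.BXP
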