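import Pool.Agent.H60.BXP.Fam
import Pool.Agent.H60.BXP.Delta
import Pool.Agent.H60.BXP.Zorn

/-!
# The box power of `ω + 1`: separation of closed sets with few crossing supports
-/

set_option autoImplicit false

open Topology Set Cardinal

namespace Pool.Agent.H60.BXP

open Pool.Agent.H96.BN Pool.Agent.H58.BP

/-- the points are equal up to finitely many places -/
def eqfS : Setoid (ℕ → ℕ∞) := ⟨Eqf, Eqf.refl, Eqf.symm, Eqf.trans⟩

/-- a representative of the class of `x` -/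
noncomputable def rep (x : ℕ → ℕ∞) : ℕ → ℕ∞ := Quotient.out (Quotient.mk eqfS x)

theorem eqf_rep (x : ℕ → ℕ∞) : Eqf (rep x) x := Quotient.exact (Quotient.out_eq (Quotient.mk eqfS x))

theorem rep_eq {x y : ℕ → ℕ∞} (h : Eqf x y) : rep x = rep y := by
  unfold rep
  rw [Quotient.sound (s := eqfS) h]

theorem Tame.eqf {g : ℕ → ℕ → ℕ} {x y : ℕ → ℕ∞} (h : Tame g x) (hxy : Eqf x y) : Tame g y := by
  obtain ⟨k, hk⟩ := h
  obtain ⟨k', hk'⟩ := hxy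
  refine ⟨max k k', fun m n hm hmn hym hyn => ?_⟩
  have e1 := hk' m ((le_max_right _ _).trans hm)
  have e2 := hk' n (((le_max_right _ _).trans hm).trans hmn.le)
  rw [← e1] at hym ⊢
  rw [← e2] at hyn ⊢
  exact hk m n ((le_max_left _ _).trans hm) hmn hym hyn

theorem supp_eqf {x y : ℕ → ℕ∞} (hxy : Eqf x y) : (symmDiff (supp x) (supp y)).Finite := by
  obtain ⟨k, hk⟩ := hxy
  refine (finite_lt_nat k).subset ?_
  intro n hn
  by_contra hcon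
  have h1 := hk n (not_lt.1 hcon)
  rcases hn with ⟨h2, h3⟩ | ⟨h2, h3⟩
  · exact h3 (h1.symm.trans h2)
  · exact h3 (h1.trans h2)

theorem symmDiff_trans_finite {A B C : Set ℕ} (h1 : (symmDiff A B).Finite)
    (h2 : (symmDiff B C).Finite) : (symmDiff A C).Finite :=
  (h1.union h2).subset (symmDiff_triangle A B C)

theorem bound_symmDiff {A B : Set ℕ} (h : (symmDiff A B).Finite) :
    ∃ k, ∀ n, k ≤ n → (n ∈ A ↔ n ∈ B) := by
  obtain ⟨k, hk⟩ := finite_bound h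
  refine ⟨k, fun n hn => ?_⟩
  have h1 := hk n hn
  rw [mem_symmDiff] at h1
  tauto

theorem infinite_of_bound {A B : Set ℕ} (hA : A.Infinite) {k : ℕ} (h : ∀ n, k ≤ n → n ∈ A → n ∈ B) :
    B.Infinite := by
  apply Set.infinite_of_forall_exists_gt
  intro b
  obtain ⟨n, hn, hbn⟩ := hA.exists_gt (max k b)
  exact ⟨n, h n ((le_max_left _ _).trans hbn.le) hn, (le_max_right _ _).trans_lt hbn⟩

/-- tubes around incomparable points of the set -/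
theorem delta {g : ℕ → ℕ → ℕ} {𝒲 : Set (Set ℕ)} {Hc : Set ℕ → ℕ → ℕ}
    (hc : ∀ V ∈ 𝒲, ∀ W ∈ 𝒲, (V \ W).Infinite → (W \ V).Infinite →
      ((V ∪ W)ᶜ).Infinite → SC (Hc V) V W ∨ SC (Hc W) W V)
    {y z : ℕ → ℕ∞} {V W : Set ℕ} {hy hz f1 f2 : ℕ → ℕ}
    (hyT : Tame g y ∨ (W ∈ 𝒲 ∧ (symmDiff (supp y) W).Finite ∧ hy = Hc W))
    (hzT : Tame g z ∨ (V ∈ 𝒲 ∧ (symmDiff (supp z) V).Finite ∧ hz = Hc V))
    (hf1 : ∀ n, FF g y hy n ≤ f1 n) (hf2 : ∀ n, FF g z hz n ≤ f2 n)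
    (hD1 : (supp z \ supp y).Infinite) (hD2 : (supp y \ supp z).Infinite) :
    Disjoint (tbs y f1) (tbs z f2) := by
  rcases hyT with hyT | ⟨hW, hyW, rfl⟩
  · exact disjoint_of_tame hyT hf1 hf2 hD1 hD2
  rcases hzT with hzT | ⟨hV, hzV, rfl⟩
  · exact (disjoint_of_tame hzT hf2 hf1 hD2 hD1).symm
  by_cases hcof : {n | n ∉ supp y ∧ n ∉ supp z}.Finite
  · exact disjoint_of_cofinite hf1 hf2 hD1 hD2 hcof
  obtain ⟨k1, hk1⟩ := bound_symmDiff hyW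
  obtain ⟨k2, hk2⟩ := bound_symmDiff hzV
  have hkk : ∀ n, max k1 k2 ≤ n → (n ∈ supp y ↔ n ∈ W) ∧ (n ∈ supp z ↔ n ∈ V) := fun n hn =>
    ⟨hk1 n ((le_max_left _ _).trans hn), hk2 n ((le_max_right _ _).trans hn)⟩
  have a1 : (V \ W).Infinite := infinite_of_bound hD1 (k := max k1 k2) fun n hn h =>
    ⟨(hkk n hn).2.1 h.1, fun h' => h.2 ((hkk n hn).1.2 h')⟩
  have a2 : (W \ V).Infinite := infinite_of_bound hD2 (k := max k1 k2) fun n hn h =>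
    ⟨(hkk n hn).1.1 h.1, fun h' => h.2 ((hkk n hn).2.2 h')⟩
  have a3 : ((V ∪ W)ᶜ).Infinite := infinite_of_bound (k := max k1 k2) hcof fun n hn h h' => by
    rcases h' with h' | h'
    · exact h.2 ((hkk n hn).2.2 h')
    · exact h.1 ((hkk n hn).1.2 h')
  rcases hc V hV W hW a1 a2 a3 with h | h
  · refine disjoint_of_set hf1 hf2 (infinite_of_bound (k := max k1 k2) h ?_)
    rintro m hm ⟨h1, n, h2, h3, h4⟩
    refine ⟨⟨(hkk m hm).2.2 h1.1, fun h' => h1.2 ((hkk m hm).1.1 h')⟩, n,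
      ⟨(hkk n (hm.trans h3)).1.2 h2.1, fun h' => h2.2 ((hkk n (hm.trans h3)).2.1 h')⟩, h3, h4⟩
  · refine (disjoint_of_set hf2 hf1 (infinite_of_bound (k := max k1 k2) h ?_)).symm
    rintro m hm ⟨h1, n, h2, h3, h4⟩
    refine ⟨⟨(hkk m hm).1.2 h1.1, fun h' => h1.2 ((hkk m hm).2.1 h')⟩, n,
      ⟨(hkk n (hm.trans h3)).2.2 h2.1, fun h' => h2.2 ((hkk n (hm.trans h3)).1.1 h')⟩, h3, h4⟩

theorem sep_main (g : ℕ → ℕ → ℕ) (𝒲 : Set (Set ℕ))
    (hW : #{W : Set ℕ | W ∈ 𝒲 ∧ dd < #{V : Set ℕ | V ∈ 𝒲 ∧ Cross V W}} < dd)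
    (H K : Set (ℕ → ℕ∞)) (hH : IsClosed[boxTop] H) (hK : IsClosed[boxTop] K) (hd : Disjoint H K)
    (hHK : ∀ x ∈ H ∪ K, Tame g x ∨ ∃ W ∈ 𝒲, (symmDiff (supp x) W).Finite) :
    @SeparatedNhds _ boxTop H K := by
  classical
  by_cases hb : AllBdd
  · obtain ⟨ρ, hρ⟩ := rank_of_allBdd hb
    exact sep_of_rank hH hK hd (subset_univ H) ρ
      (fun z _ => by
        obtain ⟨h, hh⟩ := hρ z
        exact ⟨h, fun y _ hy => hh y hy⟩)
      (fun z _ hz => absurd (mem_univ z) hz)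
  obtain ⟨Hc, hHc⟩ := exists_catch 𝒲 hW
  set A : Set (ℕ → ℕ∞) := sat (H ∪ K) with hA
  have hAs : Sat A := Sat_sat _
  have hAx : ∀ x ∈ A, Tame g x ∨ ∃ W ∈ 𝒲, (symmDiff (supp x) W).Finite := by
    rintro x ⟨y, hy, hxy⟩
    rcases hHK y hy with h | ⟨W, hW1, hW2⟩
    · exact Or.inl (h.eqf hxy.symm)
    · exact Or.inr ⟨W, hW1, symmDiff_trans_finite (supp_eqf hxy) hW2⟩
  have hw : ∀ x : ℕ → ℕ∞, ∃ W : Set ℕ, x ∈ A →
      Tame g x ∨ (W ∈ 𝒲 ∧ (symmDiff (supp x) W).Finite) := by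
    intro x
    by_cases hx : x ∈ A
    · rcases hAx x hx with h | ⟨W, hW1, hW2⟩
      · exact ⟨∅, fun _ => Or.inl h⟩
      · exact ⟨W, fun _ => Or.inr ⟨hW1, hW2⟩⟩
    · exact ⟨∅, fun h => absurd h hx⟩
  choose w hw using hw
  set U : Set (Set (ℕ → ℕ∞)) := {Kᶜ, Hᶜ} with hU
  have hUo : ∀ V ∈ U, IsOpen[boxTop] V := by
    rintro V (rfl | hV)
    · exact (@isOpen_compl_iff _ _ boxTop).2 hK
    · rw [mem_singleton_iff] at hV
      rw [hV]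
      exact (@isOpen_compl_iff _ _ boxTop).2 hH
  have hUc : ∀ y : ℕ → ℕ∞, ∃ V ∈ U, y ∈ V := by
    intro y
    by_cases hy : y ∈ K
    · exact ⟨Hᶜ, by simp [hU], fun h => Set.disjoint_left.1 hd h hy⟩
    · exact ⟨Kᶜ, by simp [hU], hy⟩
  choose f0 C0 hC0 using fun z : ℕ → ℕ∞ => local_ref U hUo z fun y _ => hUc y
  set base : (ℕ → ℕ∞) → ℕ → ℕ := fun z n => max (f0 z n) (FF g z (Hc (w z)) n) with hbase
  have hrA : ∀ x ∈ A, rep x ∈ A := fun x hx => hAs x hx (rep x) (eqf_rep x)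
  have htr : ∀ (x : ℕ → ℕ∞) (f : ℕ → ℕ), tbs x f = tbs (rep x) f := fun x f =>
    tbs_congr f (eqf_rep x).symm
  obtain ⟨R, hR1, hR2, hR3⟩ := zorn_core A U (fun x => base (rep x)) (fun x => C0 (rep x))
    (fun x y h => by simp only [rep_eq h]) (fun x y h => by simp only [rep_eq h])
    (fun x _ j => (hC0 (rep x)).1 j) (fun x _ j => (hC0 (rep x)).2.1 j)
    (fun x _ i j h => (hC0 (rep x)).2.2.1 i j h)
    (fun x _ => by
      rw [htr]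
      exact (tbs_anti (rep x) fun n => le_max_left _ _).trans (hC0 (rep x)).2.2.2)
    (fun x hx z hz f1 f2 hf1 hf2 hne => by
      rw [htr x, htr z] at hne ⊢
      have hx' := hw (rep x) (hrA x hx)
      have hz' := hw (rep z) (hrA z hz)
      have h1 := mem_or_mem (x := rep x) (z := rep z) (f := f1) (g := f2) (fun hD1 hD2 =>
        delta (g := g) (y := rep x) (z := rep z) (V := w (rep z)) (W := w (rep x))
          (hy := Hc (w (rep x))) (hz := Hc (w (rep z))) hHc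
          (hx'.imp id fun h => ⟨h.1, h.2, rfl⟩) (hz'.imp id fun h => ⟨h.1, h.2, rfl⟩)
          (fun n => (le_max_right _ _).trans (hf1 n)) (fun n => (le_max_right _ _).trans (hf2 n))
          hD1 hD2) hne
      rcases h1 with h1 | h1
      · exact Or.inl (tbs_sat h1 (eqf_rep z).symm)
      · exact Or.inr (tbs_sat h1 (eqf_rep x).symm))
    hb
  have hHA : H ⊆ A := subset_union_left.trans (subset_sat _)
  have hKA : K ⊆ A := subset_union_right.trans (subset_sat _)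
  have hcase : ∀ V ∈ R, V ⊆ Kᶜ ∨ V ⊆ Hᶜ := by
    intro V hV
    obtain ⟨W, hW, hVW⟩ := (hR1 V hV).2
    rcases hW with rfl | hW
    · exact Or.inl hVW
    · rw [mem_singleton_iff] at hW
      rw [hW] at hVW
      exact Or.inr hVW
  refine ⟨⋃₀ {V | V ∈ R ∧ V ⊆ Kᶜ}, ⋃₀ {V | V ∈ R ∧ ¬ V ⊆ Kᶜ}, ?_, ?_, ?_, ?_, ?_⟩
  · exact @isOpen_sUnion _ boxTop {V | V ∈ R ∧ V ⊆ Kᶜ} fun V hV => (hR1 V hV.1).1
  · exact @isOpen_sUnion _ boxTop {V | V ∈ R ∧ ¬ V ⊆ Kᶜ} fun V hV => (hR1 V hV.1).1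
  · intro x hx
    obtain ⟨V, hV, hxV⟩ := hR3 (hHA hx)
    refine ⟨V, ⟨hV, ?_⟩, hxV⟩
    rcases hcase V hV with h | h
    · exact h
    · exact absurd hx (h hxV)
  · intro x hx
    obtain ⟨V, hV, hxV⟩ := hR3 (hKA hx)
    exact ⟨V, ⟨hV, fun h => h hxV hx⟩, hxV⟩
  · rw [Set.disjoint_left]
    rintro v ⟨V, ⟨hV, hVK⟩, hvV⟩ ⟨W, ⟨hW, hWK⟩, hvW⟩
    have hne : V ≠ W := fun h => hWK (h ▸ hVK)
    exact Set.disjoint_left.1 (hR2 V hV W hW hne) hvV hvW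

end Pool.Agent.H60.BXP
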