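import Pool.Agent.H60.BXP.Fam2
import Pool.Agent.H60.BXP.Final

/-!
# The box power of `ω + 1`: separation of closed sets, families of supports with tame crossings
-/

set_option autoImplicit false

open Topology Set Cardinal

namespace Pool.Agent.H60.BXP

open Pool.Agent.H96.BN Pool.Agent.H58.BP

/-- `V \ W` meets almost all intervals `[k, ψ k]` -/
def Meets (ψ : ℕ → ℕ) (V W : Set ℕ) : Prop :=
  ∃ K, ∀ k, K ≤ k → ∃ m ∈ V \ W, k ≤ m ∧ m ≤ ψ k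

theorem Meets.mono {ψ ψ' : ℕ → ℕ} {V W : Set ℕ} (h : Meets ψ V W) (hψ : ∀ n, ψ n ≤ ψ' n) :
    Meets ψ' V W := by
  obtain ⟨K, hK⟩ := h
  refine ⟨K, fun k hk => ?_⟩
  obtain ⟨m, hm, h1, h2⟩ := hK k hk
  exact ⟨m, hm, h1, h2.trans (hψ k)⟩

theorem delta_dir {y z : ℕ → ℕ∞} {V W : Set ℕ} {f1 f2 h ψ φ b : ℕ → ℕ}
    (hyW : (symmDiff (supp y) W).Finite) (hzV : (symmDiff (supp z) V).Finite)
    (hf2 : ∀ n, up h n ≤ f2 n) (hb : y ∈ Bd b) (hm : Meets ψ V W)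
    (hφ : ∀ k, up b (ψ k) ≤ φ k) (hh : ∀ K, ∃ k, K ≤ k ∧ φ k < h k) :
    Disjoint (tbs y f1) (tbs z f2) := by
  obtain ⟨k1, hk1⟩ := bound_symmDiff hyW
  obtain ⟨k2, hk2⟩ := bound_symmDiff hzV
  obtain ⟨k3, hk3⟩ := hb
  obtain ⟨K, hK⟩ := hm
  refine disjoint_of_val (Set.infinite_of_forall_exists_gt fun c => ?_)
  obtain ⟨k, hk, hlt⟩ := hh (max (max k1 k2) (max (max k3 K) (c + 1)))
  have e1 : k1 ≤ k := ((le_max_left _ _).trans (le_max_left _ _)).trans hk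
  have e2 : k2 ≤ k := ((le_max_right _ _).trans (le_max_left _ _)).trans hk
  have e3 : k3 ≤ k :=
    (((le_max_left _ _).trans (le_max_left _ _)).trans (le_max_right _ _)).trans hk
  have e4 : K ≤ k :=
    (((le_max_right _ _).trans (le_max_left _ _)).trans (le_max_right _ _)).trans hk
  have e5 : c + 1 ≤ k := ((le_max_right _ _).trans (le_max_right _ _)).trans hk
  obtain ⟨m, ⟨hmV, hmW⟩, hkm, hmk⟩ := hK k e4
  have hzm : m ∈ supp z := (hk2 m (e2.trans hkm)).2 hmV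
  have hym : m ∉ supp y := fun h' => hmW ((hk1 m (e1.trans hkm)).1 h')
  refine ⟨m, ⟨hzm, hym, ?_⟩, by omega⟩
  have h1 := hk3 m (e3.trans hkm) hym
  rw [← ENat.natCast_toNat (n := y m) hym] at h1
  have h2 : (y m).toNat ≤ b m := by exact_mod_cast h1
  calc (y m).toNat ≤ b m := h2
    _ ≤ up b (ψ k) := le_up b hmk
    _ ≤ φ k := hφ k
    _ ≤ h k := hlt.le
    _ ≤ up h m := le_up h hkm
    _ ≤ f2 m := hf2 m

/-- separation -/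
theorem sep_main2 (g : ℕ → ℕ → ℕ) (𝔘 : Set (Set (Set ℕ))) (h𝔘 : #𝔘 ≤ dd)
    (S : Set ℕ → Set (Set ℕ)) (hS : ∀ V ∈ ⋃₀ 𝔘, #(S V) < dd)
    (hcr : ∀ V ∈ ⋃₀ 𝔘, ∀ 𝒰 ∈ 𝔘, ∃ ψ : ℕ → ℕ, ∀ W ∈ 𝒰, Cross V W →
      W ∈ S V ∨ V ∈ S W ∨ Meets ψ V W)
    (H K : Set (ℕ → ℕ∞)) (hH : IsClosed[boxTop] H) (hK : IsClosed[boxTop] K) (hd : Disjoint H K)
    (hHK : ∀ x ∈ H ∪ K, Tame g x ∨ ∃ W ∈ ⋃₀ 𝔘, (symmDiff (supp x) W).Finite) :
    @SeparatedNhds _ boxTop H K := by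
  classical
  by_cases hb : AllBdd
  · obtain ⟨ρ, hρ⟩ := rank_of_allBdd hb
    exact sep_of_rank hH hK hd (subset_univ H) ρ
      (fun z _ => by
        obtain ⟨h, hh⟩ := hρ z
        exact ⟨h, fun y _ hy => hh y hy⟩)
      (fun z _ hz => absurd (mem_univ z) hz)
  set A : Set (ℕ → ℕ∞) := sat (H ∪ K) with hA
  have hAs : Sat A := Sat_sat _
  have hAx : ∀ x ∈ A, Tame g x ∨ ∃ W ∈ ⋃₀ 𝔘, (symmDiff (supp x) W).Finite := by
    rintro x ⟨y, hy, hxy⟩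
    rcases hHK y hy with h | ⟨W, hW1, hW2⟩
    · exact Or.inl (h.eqf hxy.symm)
    · exact Or.inr ⟨W, hW1, symmDiff_trans_finite (supp_eqf hxy) hW2⟩
  have hw : ∀ x : ℕ → ℕ∞, ∃ W : Set ℕ, x ∈ A →
      Tame g x ∨ (W ∈ ⋃₀ 𝔘 ∧ (symmDiff (supp x) W).Finite) := by
    intro x
    by_cases hx : x ∈ A
    · rcases hAx x hx with h | ⟨W, hW1, hW2⟩
      · exact ⟨∅, fun _ => Or.inl h⟩
      · exact ⟨W, fun _ => Or.inr ⟨hW1, hW2⟩⟩
    · exact ⟨∅, fun h => absurd h hx⟩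
  choose w hw using hw
  -- the pieces
  obtain ⟨ix, hix⟩ := exists_idx2 𝔘 h𝔘
  have hψ : ∀ (V : Set ℕ) (j : II), ∃ ψ : ℕ → ℕ, V ∈ ⋃₀ 𝔘 → ∀ 𝒰 ∈ 𝔘, ix 𝒰 = j → ∀ W ∈ 𝒰,
      Cross V W → W ∈ S V ∨ V ∈ S W ∨ Meets ψ V W := by
    intro V j
    by_cases h : V ∈ ⋃₀ 𝔘 ∧ ∃ 𝒰 ∈ 𝔘, ix 𝒰 = j
    · obtain ⟨hV, 𝒰, h1, h2⟩ := h
      obtain ⟨ψ, hψ⟩ := hcr V hV 𝒰 h1
      refine ⟨ψ, fun _ 𝒰' h1' h2' => ?_⟩
      have h3 : 𝒰' = 𝒰 := hix h1' h1 (h2'.trans h2.symm)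
      rw [h3]
      exact hψ
    · refine ⟨id, fun hV 𝒰 h1 h2 => ?_⟩
      exact absurd ⟨hV, 𝒰, h1, h2⟩ h
  choose ψ hψ using hψ
  have hυ : ∀ W : Set ℕ, ∃ j : II, W ∈ ⋃₀ 𝔘 → ∃ 𝒰 ∈ 𝔘, ix 𝒰 = j ∧ W ∈ 𝒰 := by
    intro W
    by_cases hW : W ∈ ⋃₀ 𝔘
    · obtain ⟨𝒰, h1, h2⟩ := hW
      exact ⟨ix 𝒰, fun _ => ⟨𝒰, h1, rfl, h2⟩⟩
    · obtain ⟨i0⟩ := nonempty_II
      exact ⟨i0, fun h => absurd h hW⟩
  choose υ hυ using hυ
  obtain ⟨gI, hgI⟩ := exists_gI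
  have hβ : ∀ x : ℕ → ℕ∞, ∃ j : II, x ∈ Bd (gI j) := by
    intro x
    obtain ⟨j, k, hk⟩ := hgI fun n => (x n).toNat
    refine ⟨j, k, fun n hn hx => ?_⟩
    rw [← ENat.natCast_toNat hx]
    exact_mod_cast hk n hn
  choose β hβ using hβ
  set ρ : (ℕ → ℕ∞) → II := fun x => max (β x) (υ (w x)) with hρ
  set Φ : (ℕ → ℕ∞) → Set (ℕ → ℕ) := fun x =>
    ((fun (W : Set ℕ) (k : ℕ) => nx (W \ w x) (nx (w x \ W) k)) '' S (w x)) ∪
    ((fun (p : II × II) (k : ℕ) => up (gI p.2) (max (ψ (w x) p.1 k) (nx (w x) k))) ''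
      {p : II × II | p.1 ≤ ρ x ∧ p.2 ≤ ρ x}) with hΦ
  have hΦc : ∀ x, w x ∈ ⋃₀ 𝔘 → #(Φ x) < dd := by
    intro x hx
    refine lt_of_le_of_lt (mk_union_le _ _) (Cardinal.add_lt_of_lt aleph0_le_dd ?_ ?_)
    · exact lt_of_le_of_lt mk_image_le (hS _ hx)
    · exact lt_of_le_of_lt mk_image_le (mk_Iic_prod_lt _)
  have hh0 : ∀ x : ℕ → ℕ∞, ∃ h : ℕ → ℕ, w x ∈ ⋃₀ 𝔘 → ∀ φ ∈ Φ x, ∀ K, ∃ k, K ≤ k ∧ φ k < h k := by
    intro x
    by_cases hx : w x ∈ ⋃₀ 𝔘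
    · obtain ⟨h, hh⟩ := exists_nondom (hΦc x hx)
      exact ⟨h, fun _ => hh⟩
    · exact ⟨id, fun h => absurd h hx⟩
  choose h0 hh0 using hh0
  -- the local refinements
  set U : Set (Set (ℕ → ℕ∞)) := {Kᶜ, Hᶜ} with hU
  have hUo : ∀ V ∈ U, IsOpen[boxTop] V := by
    rintro V (rfl | hV)
    · exact (@isOpen_compl_iff _ _ boxTop).2 hK
    · rw [mem_singleton_iff] at hV
      rw [hV]
      exact (@isOpen_compl_iff _ _ boxTop).2 hH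
  have hUc : ∀ y : ℕ → ℕ∞, ∃ V ∈ U, y ∈ V := by
    intro y
    by_cases hy : y ∈ K
    · exact ⟨Hᶜ, by simp [hU], fun h => Set.disjoint_left.1 hd h hy⟩
    · exact ⟨Kᶜ, by simp [hU], hy⟩
  choose f0 C0 hC0 using fun z : ℕ → ℕ∞ => local_ref U hUo z fun y _ => hUc y
  set base : (ℕ → ℕ∞) → ℕ → ℕ := fun z n =>
    max (f0 z n) (max (FF g z (up (h0 z)) n) (up (h0 z) n)) with hbase
  have hrA : ∀ x ∈ A, rep x ∈ A := fun x hx => hAs x hx (rep x) (eqf_rep x)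
  have htr : ∀ (x : ℕ → ℕ∞) (f : ℕ → ℕ), tbs x f = tbs (rep x) f := fun x f =>
    tbs_congr f (eqf_rep x).symm
  -- the tubes around incomparable points, one direction
  have hdir : ∀ y z : ℕ → ℕ∞, ∀ f1 f2 : ℕ → ℕ, (∀ n, base y n ≤ f1 n) → (∀ n, base z n ≤ f2 n) →
      (w y ∈ ⋃₀ 𝔘 ∧ (symmDiff (supp y) (w y)).Finite) →
      (w z ∈ ⋃₀ 𝔘 ∧ (symmDiff (supp z) (w z)).Finite) →
      (w y ∈ S (w z) ∨ w z ∈ S (w y) → Disjoint (tbs y f1) (tbs z f2)) →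
      (w z \ w y).Infinite → (w y \ w z).Infinite → ((w z ∪ w y)ᶜ).Infinite →
      ρ y ≤ ρ z → Disjoint (tbs y f1) (tbs z f2) := by
    intro y z f1 f2 hf1 hf2 hy hz hSd a1 a2 a3 hle
    have b1 : β y ≤ ρ z := (le_max_left _ _).trans hle
    have b2 : υ (w y) ≤ ρ z := (le_max_right _ _).trans hle
    have b3 : ∀ n, up (h0 z) n ≤ f2 n := fun n =>
      ((le_max_right _ _).trans (le_max_right _ _)).trans (hf2 n)
    have b4 := hh0 z hz.1 _ (Or.inr ⟨(υ (w y), β y), ⟨b2, b1⟩, rfl⟩)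
    have hM : Meets (fun k => max (ψ (w z) (υ (w y)) k) (nx (w z) k)) (w z) (w y) →
        Disjoint (tbs y f1) (tbs z f2) := fun hM =>
      delta_dir hy.2 hz.2 b3 (hβ y) hM (fun k => le_rfl) b4
    by_cases hfin : (w z ∩ w y).Finite
    · apply hM
      obtain ⟨k1, hk1⟩ := finite_bound hfin
      have hV : (w z).Infinite := a1.mono sdiff_subset
      refine ⟨k1, fun k hk => ?_⟩
      obtain ⟨c1, c2⟩ := nx_spec hV k
      exact ⟨nx (w z) k, ⟨c2, fun h => hk1 _ (hk.trans c1) ⟨c2, h⟩⟩, c1, le_max_right _ _⟩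
    · obtain ⟨𝒰, h1, h2, h3⟩ := hυ (w y) hy.1
      rcases hψ (w z) (υ (w y)) hz.1 𝒰 h1 h2 (w y) h3 ⟨hfin, a1, a2, a3⟩ with h | h | h
      · exact hSd (Or.inl h)
      · exact hSd (Or.inr h)
      · exact hM (h.mono fun n => le_max_left _ _)
  -- the case of `S`
  have hSdir : ∀ y z : ℕ → ℕ∞, ∀ f1 f2 : ℕ → ℕ, (∀ n, base y n ≤ f1 n) → (∀ n, base z n ≤ f2 n) →
      (w y ∈ ⋃₀ 𝔘 ∧ (symmDiff (supp y) (w y)).Finite) →
      (w z ∈ ⋃₀ 𝔘 ∧ (symmDiff (supp z) (w z)).Finite) →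
      (w z \ w y).Infinite → (w y \ w z).Infinite →
      w y ∈ S (w z) → Disjoint (tbs y f1) (tbs z f2) := by
    intro y z f1 f2 hf1 hf2 hy hz a1 a2 hmem
    obtain ⟨k1, hk1⟩ := bound_symmDiff hy.2
    obtain ⟨k2, hk2⟩ := bound_symmDiff hz.2
    have b4 := hh0 z hz.1 _ (Or.inl ⟨w y, hmem, rfl⟩)
    refine disjoint_of_set (g := g) (hy := up (h0 y)) (hz := up (h0 z))
      (fun n => ((le_max_left _ _).trans (le_max_right _ _)).trans (hf1 n))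
      (fun n => ((le_max_left _ _).trans (le_max_right _ _)).trans (hf2 n))
      (Set.infinite_of_forall_exists_gt fun c => ?_)
    obtain ⟨k, hk, hlt⟩ := b4 (max (max k1 k2) (c + 1))
    have e1 : k1 ≤ k := ((le_max_left _ _).trans (le_max_left _ _)).trans hk
    have e2 : k2 ≤ k := ((le_max_right _ _).trans (le_max_left _ _)).trans hk
    have e3 : c + 1 ≤ k := (le_max_right _ _).trans hk
    obtain ⟨c1, c2⟩ := nx_spec a1 k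
    obtain ⟨c3, c4⟩ := nx_spec a2 (nx (w z \ w y) k)
    refine ⟨nx (w z \ w y) k, ⟨⟨(hk2 _ (e2.trans c1)).2 c2.1, fun h =>
      c2.2 ((hk1 _ (e1.trans c1)).1 h)⟩, nx (w y \ w z) (nx (w z \ w y) k),
      ⟨(hk1 _ ((e1.trans c1).trans c3)).2 c4.1, fun h =>
        c4.2 ((hk2 _ ((e2.trans c1).trans c3)).1 h)⟩, c3, ?_⟩, by omega⟩
    exact hlt.le.trans (le_up (h0 z) c1)
  have hdelta : ∀ y z : ℕ → ℕ∞, ∀ f1 f2 : ℕ → ℕ, (∀ n, base y n ≤ f1 n) →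
      (∀ n, base z n ≤ f2 n) →
      (Tame g y ∨ (w y ∈ ⋃₀ 𝔘 ∧ (symmDiff (supp y) (w y)).Finite)) →
      (Tame g z ∨ (w z ∈ ⋃₀ 𝔘 ∧ (symmDiff (supp z) (w z)).Finite)) →
      (supp z \ supp y).Infinite → (supp y \ supp z).Infinite →
      Disjoint (tbs y f1) (tbs z f2) := by
    intro y z f1 f2 hf1 hf2 hyT hzT hD1 hD2
    have hF1 : ∀ n, FF g y (up (h0 y)) n ≤ f1 n := fun n =>
      ((le_max_left _ _).trans (le_max_right _ _)).trans (hf1 n)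
    have hF2 : ∀ n, FF g z (up (h0 z)) n ≤ f2 n := fun n =>
      ((le_max_left _ _).trans (le_max_right _ _)).trans (hf2 n)
    rcases hyT with hyT | hy
    · exact disjoint_of_tame hyT hF1 hF2 hD1 hD2
    rcases hzT with hzT | hz
    · exact (disjoint_of_tame hzT hF2 hF1 hD2 hD1).symm
    by_cases hcof : {n | n ∉ supp y ∧ n ∉ supp z}.Finite
    · exact disjoint_of_cofinite hF1 hF2 hD1 hD2 hcof
    obtain ⟨k1, hk1⟩ := bound_symmDiff hy.2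
    obtain ⟨k2, hk2⟩ := bound_symmDiff hz.2
    have hkk : ∀ n, max k1 k2 ≤ n → (n ∈ supp y ↔ n ∈ w y) ∧ (n ∈ supp z ↔ n ∈ w z) := fun n hn =>
      ⟨hk1 n ((le_max_left _ _).trans hn), hk2 n ((le_max_right _ _).trans hn)⟩
    have a1 : (w z \ w y).Infinite := infinite_of_bound hD1 (k := max k1 k2) fun n hn h =>
      ⟨(hkk n hn).2.1 h.1, fun h' => h.2 ((hkk n hn).1.2 h')⟩
    have a2 : (w y \ w z).Infinite := infinite_of_bound hD2 (k := max k1 k2) fun n hn h =>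
      ⟨(hkk n hn).1.1 h.1, fun h' => h.2 ((hkk n hn).2.2 h')⟩
    have a3 : ((w z ∪ w y)ᶜ).Infinite := infinite_of_bound (k := max k1 k2) hcof fun n hn h h' => by
      rcases h' with h' | h'
      · exact h.2 ((hkk n hn).2.2 h')
      · exact h.1 ((hkk n hn).1.2 h')
    have a3' : ((w y ∪ w z)ᶜ).Infinite := by rwa [union_comm]
    have hSd : w y ∈ S (w z) ∨ w z ∈ S (w y) → Disjoint (tbs y f1) (tbs z f2) := by
      rintro (h | h)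
      · exact hSdir y z f1 f2 hf1 hf2 hy hz a1 a2 h
      · exact (hSdir z y f2 f1 hf2 hf1 hz hy a2 a1 h).symm
    rcases le_total (ρ y) (ρ z) with h | h
    · exact hdir y z f1 f2 hf1 hf2 hy hz hSd a1 a2 a3 h
    · exact (hdir z y f2 f1 hf2 hf1 hz hy (fun h' => (hSd h'.symm).symm) a2 a1 a3' h).symm
  obtain ⟨R, hR1, hR2, hR3⟩ := zorn_core A U (fun x => base (rep x)) (fun x => C0 (rep x))
    (fun x y h => by simp only [rep_eq h]) (fun x y h => by simp only [rep_eq h])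
    (fun x _ j => (hC0 (rep x)).1 j) (fun x _ j => (hC0 (rep x)).2.1 j)
    (fun x _ i j h => (hC0 (rep x)).2.2.1 i j h)
    (fun x _ => by
      rw [htr]
      exact (tbs_anti (rep x) fun n => le_max_left _ _).trans (hC0 (rep x)).2.2.2)
    (fun x hx z hz f1 f2 hf1 hf2 hne => by
      rw [htr x, htr z] at hne ⊢
      have h1 := mem_or_mem (x := rep x) (z := rep z) (f := f1) (g := f2) (fun hD1 hD2 =>
        hdelta (rep x) (rep z) f1 f2 hf1 hf2 (hw (rep x) (hrA x hx)) (hw (rep z) (hrA z hz))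
          hD1 hD2) hne
      rcases h1 with h1 | h1
      · exact Or.inl (tbs_sat h1 (eqf_rep z).symm)
      · exact Or.inr (tbs_sat h1 (eqf_rep x).symm))
    hb
  have hHA : H ⊆ A := subset_union_left.trans (subset_sat _)
  have hKA : K ⊆ A := subset_union_right.trans (subset_sat _)
  have hcase : ∀ V ∈ R, V ⊆ Kᶜ ∨ V ⊆ Hᶜ := by
    intro V hV
    obtain ⟨W, hW, hVW⟩ := (hR1 V hV).2
    rcases hW with rfl | hW
    · exact Or.inl hVW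
    · rw [mem_singleton_iff] at hW
      rw [hW] at hVW
      exact Or.inr hVW
  refine ⟨⋃₀ {V | V ∈ R ∧ V ⊆ Kᶜ}, ⋃₀ {V | V ∈ R ∧ ¬ V ⊆ Kᶜ}, ?_, ?_, ?_, ?_, ?_⟩
  · exact @isOpen_sUnion _ boxTop {V | V ∈ R ∧ V ⊆ Kᶜ} fun V hV => (hR1 V hV.1).1
  · exact @isOpen_sUnion _ boxTop {V | V ∈ R ∧ ¬ V ⊆ Kᶜ} fun V hV => (hR1 V hV.1).1
  · intro x hx
    obtain ⟨V, hV, hxV⟩ := hR3 (hHA hx)
    refine ⟨V, ⟨hV, ?_⟩, hxV⟩
    rcases hcase V hV with h | h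
    · exact h
    · exact absurd hx (h hxV)
  · intro x hx
    obtain ⟨V, hV, hxV⟩ := hR3 (hKA hx)
    exact ⟨V, ⟨hV, fun h => h hxV hx⟩, hxV⟩
  · rw [Set.disjoint_left]
    rintro v ⟨V, ⟨hV, hVK⟩, hvV⟩ ⟨W, ⟨hW, hWK⟩, hvW⟩
    have hne : V ≠ W := fun h => hWK (h ▸ hVK)
    exact Set.disjoint_left.1 (hR2 V hV W hW hne) hvV hvW

end Pool.Agent.H60.BXP
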