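import Pool.Agent.H60.BXP.Final2

/-!
# The box power of `ω + 1`: disjoint refinements, families of supports with tame crossings
-/

set_option autoImplicit false

open Topology Set Cardinal

namespace Pool.Agent.H60.BXP

open Pool.Agent.H96.BN Pool.Agent.H58.BP

/-- every family of open sets which covers the saturated set `A` has a disjoint refinement -/
theorem ultra_main (g : ℕ → ℕ → ℕ) (𝔘 : Set (Set (Set ℕ))) (h𝔘 : #𝔘 ≤ dd)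
    (S : Set ℕ → Set (Set ℕ)) (hS : ∀ V ∈ ⋃₀ 𝔘, #(S V) < dd)
    (hcr : ∀ V ∈ ⋃₀ 𝔘, ∀ 𝒰 ∈ 𝔘, ∃ ψ : ℕ → ℕ, ∀ W ∈ 𝒰, Cross V W →
      W ∈ S V ∨ V ∈ S W ∨ Meets ψ V W)
    (A : Set (ℕ → ℕ∞)) (hAs : Sat A)
    (hAx : ∀ x ∈ A, Tame g x ∨ ∃ W ∈ ⋃₀ 𝔘, (symmDiff (supp x) W).Finite)
    (U : Set (Set (ℕ → ℕ∞))) (hUo : ∀ V ∈ U, IsOpen[boxTop] V) (hUc : A ⊆ ⋃₀ U) :
    ∃ R : Set (Set (ℕ → ℕ∞)), (∀ V ∈ R, IsOpen[boxTop] V ∧ ∃ W ∈ U, V ⊆ W) ∧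
      (∀ V ∈ R, ∀ W ∈ R, V ≠ W → Disjoint V W) ∧ A ⊆ ⋃₀ R := by
  classical
  by_cases hb : AllBdd
  · obtain ⟨ρ, hρ⟩ := rank_of_allBdd hb
    obtain ⟨R, h1, h2, h3, -⟩ := refine_cover A ρ (fun z _ => by
        obtain ⟨h, hh⟩ := hρ z
        exact ⟨h, fun y _ hy => hh y hy⟩) U hUo fun z hz y hy => hUc (hAs z hz y hy)
    exact ⟨R, h1, h2, h3⟩
  have hw : ∀ x : ℕ → ℕ∞, ∃ W : Set ℕ, x ∈ A →
      Tame g x ∨ (W ∈ ⋃₀ 𝔘 ∧ (symmDiff (supp x) W).Finite) := by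
    intro x
    by_cases hx : x ∈ A
    · rcases hAx x hx with h | ⟨W, hW1, hW2⟩
      · exact ⟨∅, fun _ => Or.inl h⟩
      · exact ⟨W, fun _ => Or.inr ⟨hW1, hW2⟩⟩
    · exact ⟨∅, fun h => absurd h hx⟩
  choose w hw using hw
  -- the pieces
  obtain ⟨ix, hix⟩ := exists_idx2 𝔘 h𝔘
  have hψ : ∀ (V : Set ℕ) (j : II), ∃ ψ : ℕ → ℕ, V ∈ ⋃₀ 𝔘 → ∀ 𝒰 ∈ 𝔘, ix 𝒰 = j → ∀ W ∈ 𝒰,
      Cross V W → W ∈ S V ∨ V ∈ S W ∨ Meets ψ V W := by
    intro V j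
    by_cases h : V ∈ ⋃₀ 𝔘 ∧ ∃ 𝒰 ∈ 𝔘, ix 𝒰 = j
    · obtain ⟨hV, 𝒰, h1, h2⟩ := h
      obtain ⟨ψ, hψ⟩ := hcr V hV 𝒰 h1
      refine ⟨ψ, fun _ 𝒰' h1' h2' => ?_⟩
      have h3 : 𝒰' = 𝒰 := hix h1' h1 (h2'.trans h2.symm)
      rw [h3]
      exact hψ
    · refine ⟨id, fun hV 𝒰 h1 h2 => ?_⟩
      exact absurd ⟨hV, 𝒰, h1, h2⟩ h
  choose ψ hψ using hψ
  have hυ : ∀ W : Set ℕ, ∃ j : II, W ∈ ⋃₀ 𝔘 → ∃ 𝒰 ∈ 𝔘, ix 𝒰 = j ∧ W ∈ 𝒰 := by
    intro W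
    by_cases hW : W ∈ ⋃₀ 𝔘
    · obtain ⟨𝒰, h1, h2⟩ := hW
      exact ⟨ix 𝒰, fun _ => ⟨𝒰, h1, rfl, h2⟩⟩
    · obtain ⟨i0⟩ := nonempty_II
      exact ⟨i0, fun h => absurd h hW⟩
  choose υ hυ using hυ
  obtain ⟨gI, hgI⟩ := exists_gI
  have hβ : ∀ x : ℕ → ℕ∞, ∃ j : II, x ∈ Bd (gI j) := by
    intro x
    obtain ⟨j, k, hk⟩ := hgI fun n => (x n).toNat
    refine ⟨j, k, fun n hn hx => ?_⟩
    rw [← ENat.natCast_toNat hx]
    exact_mod_cast hk n hn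
  choose β hβ using hβ
  set ρ : (ℕ → ℕ∞) → II := fun x => max (β x) (υ (w x)) with hρ
  set Φ : (ℕ → ℕ∞) → Set (ℕ → ℕ) := fun x =>
    ((fun (W : Set ℕ) (k : ℕ) => nx (W \ w x) (nx (w x \ W) k)) '' S (w x)) ∪
    ((fun (p : II × II) (k : ℕ) => up (gI p.2) (max (ψ (w x) p.1 k) (nx (w x) k))) ''
      {p : II × II | p.1 ≤ ρ x ∧ p.2 ≤ ρ x}) with hΦ
  have hΦc : ∀ x, w x ∈ ⋃₀ 𝔘 → #(Φ x) < dd := by
    intro x hx
    refine lt_of_le_of_lt (mk_union_le _ _) (Cardinal.add_lt_of_lt aleph0_le_dd ?_ ?_)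
    · exact lt_of_le_of_lt mk_image_le (hS _ hx)
    · exact lt_of_le_of_lt mk_image_le (mk_Iic_prod_lt _)
  have hh0 : ∀ x : ℕ → ℕ∞, ∃ h : ℕ → ℕ, w x ∈ ⋃₀ 𝔘 → ∀ φ ∈ Φ x, ∀ K, ∃ k, K ≤ k ∧ φ k < h k := by
    intro x
    by_cases hx : w x ∈ ⋃₀ 𝔘
    · obtain ⟨h, hh⟩ := exists_nondom (hΦc x hx)
      exact ⟨h, fun _ => hh⟩
    · exact ⟨id, fun h => absurd h hx⟩
  choose h0 hh0 using hh0
  -- the local refinements
  have hloc : ∀ z : ℕ → ℕ∞, ∃ (f : ℕ → ℕ) (C : ℕ → Set (ℕ → ℕ∞)), z ∈ A →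
      ((∀ j, IsOpen[boxTop] (C j)) ∧ (∀ j, ∃ V ∈ U, C j ⊆ V) ∧
      (∀ i j, i ≠ j → Disjoint (C i) (C j)) ∧ tbs z f ⊆ ⋃ j, C j) := by
    intro z
    by_cases hz : z ∈ A
    · obtain ⟨f, C, h⟩ := local_ref U hUo z fun y hy => hUc (hAs z hz y hy)
      exact ⟨f, C, fun _ => h⟩
    · exact ⟨id, fun _ => ∅, fun h => absurd h hz⟩
  choose f0 C0 hC0 using hloc
  set base : (ℕ → ℕ∞) → ℕ → ℕ := fun z n =>
    max (f0 z n) (max (FF g z (up (h0 z)) n) (up (h0 z) n)) with hbase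
  have hrA : ∀ x ∈ A, rep x ∈ A := fun x hx => hAs x hx (rep x) (eqf_rep x)
  have htr : ∀ (x : ℕ → ℕ∞) (f : ℕ → ℕ), tbs x f = tbs (rep x) f := fun x f =>
    tbs_congr f (eqf_rep x).symm
  -- the tubes around incomparable points, one direction
  have hdir : ∀ y z : ℕ → ℕ∞, ∀ f1 f2 : ℕ → ℕ, (∀ n, base y n ≤ f1 n) → (∀ n, base z n ≤ f2 n) →
      (w y ∈ ⋃₀ 𝔘 ∧ (symmDiff (supp y) (w y)).Finite) →
      (w z ∈ ⋃₀ 𝔘 ∧ (symmDiff (supp z) (w z)).Finite) →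
      (w y ∈ S (w z) ∨ w z ∈ S (w y) → Disjoint (tbs y f1) (tbs z f2)) →
      (w z \ w y).Infinite → (w y \ w z).Infinite → ((w z ∪ w y)ᶜ).Infinite →
      ρ y ≤ ρ z → Disjoint (tbs y f1) (tbs z f2) := by
    intro y z f1 f2 hf1 hf2 hy hz hSd a1 a2 a3 hle
    have b1 : β y ≤ ρ z := (le_max_left _ _).trans hle
    have b2 : υ (w y) ≤ ρ z := (le_max_right _ _).trans hle
    have b3 : ∀ n, up (h0 z) n ≤ f2 n := fun n =>
      ((le_max_right _ _).trans (le_max_right _ _)).trans (hf2 n)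
    have b4 := hh0 z hz.1 _ (Or.inr ⟨(υ (w y), β y), ⟨b2, b1⟩, rfl⟩)
    have hM : Meets (fun k => max (ψ (w z) (υ (w y)) k) (nx (w z) k)) (w z) (w y) →
        Disjoint (tbs y f1) (tbs z f2) := fun hM =>
      delta_dir hy.2 hz.2 b3 (hβ y) hM (fun k => le_rfl) b4
    by_cases hfin : (w z ∩ w y).Finite
    · apply hM
      obtain ⟨k1, hk1⟩ := finite_bound hfin
      have hV : (w z).Infinite := a1.mono sdiff_subset
      refine ⟨k1, fun k hk => ?_⟩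
      obtain ⟨c1, c2⟩ := nx_spec hV k
      exact ⟨nx (w z) k, ⟨c2, fun h => hk1 _ (hk.trans c1) ⟨c2, h⟩⟩, c1, le_max_right _ _⟩
    · obtain ⟨𝒰, h1, h2, h3⟩ := hυ (w y) hy.1
      rcases hψ (w z) (υ (w y)) hz.1 𝒰 h1 h2 (w y) h3 ⟨hfin, a1, a2, a3⟩ with h | h | h
      · exact hSd (Or.inl h)
      · exact hSd (Or.inr h)
      · exact hM (h.mono fun n => le_max_left _ _)
  -- the case of `S`
  have hSdir : ∀ y z : ℕ → ℕ∞, ∀ f1 f2 : ℕ → ℕ, (∀ n, base y n ≤ f1 n) → (∀ n, base z n ≤ f2 n) →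
      (w y ∈ ⋃₀ 𝔘 ∧ (symmDiff (supp y) (w y)).Finite) →
      (w z ∈ ⋃₀ 𝔘 ∧ (symmDiff (supp z) (w z)).Finite) →
      (w z \ w y).Infinite → (w y \ w z).Infinite →
      w y ∈ S (w z) → Disjoint (tbs y f1) (tbs z f2) := by
    intro y z f1 f2 hf1 hf2 hy hz a1 a2 hmem
    obtain ⟨k1, hk1⟩ := bound_symmDiff hy.2
    obtain ⟨k2, hk2⟩ := bound_symmDiff hz.2
    have b4 := hh0 z hz.1 _ (Or.inl ⟨w y, hmem, rfl⟩)
    refine disjoint_of_set (g := g) (hy := up (h0 y)) (hz := up (h0 z))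
      (fun n => ((le_max_left _ _).trans (le_max_right _ _)).trans (hf1 n))
      (fun n => ((le_max_left _ _).trans (le_max_right _ _)).trans (hf2 n))
      (Set.infinite_of_forall_exists_gt fun c => ?_)
    obtain ⟨k, hk, hlt⟩ := b4 (max (max k1 k2) (c + 1))
    have e1 : k1 ≤ k := ((le_max_left _ _).trans (le_max_left _ _)).trans hk
    have e2 : k2 ≤ k := ((le_max_right _ _).trans (le_max_left _ _)).trans hk
    have e3 : c + 1 ≤ k := (le_max_right _ _).trans hk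
    obtain ⟨c1, c2⟩ := nx_spec a1 k
    obtain ⟨c3, c4⟩ := nx_spec a2 (nx (w z \ w y) k)
    refine ⟨nx (w z \ w y) k, ⟨⟨(hk2 _ (e2.trans c1)).2 c2.1, fun h =>
      c2.2 ((hk1 _ (e1.trans c1)).1 h)⟩, nx (w y \ w z) (nx (w z \ w y) k),
      ⟨(hk1 _ ((e1.trans c1).trans c3)).2 c4.1, fun h =>
        c4.2 ((hk2 _ ((e2.trans c1).trans c3)).1 h)⟩, c3, ?_⟩, by omega⟩
    exact hlt.le.trans (le_up (h0 z) c1)
  have hdelta : ∀ y z : ℕ → ℕ∞, ∀ f1 f2 : ℕ → ℕ, (∀ n, base y n ≤ f1 n) →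
      (∀ n, base z n ≤ f2 n) →
      (Tame g y ∨ (w y ∈ ⋃₀ 𝔘 ∧ (symmDiff (supp y) (w y)).Finite)) →
      (Tame g z ∨ (w z ∈ ⋃₀ 𝔘 ∧ (symmDiff (supp z) (w z)).Finite)) →
      (supp z \ supp y).Infinite → (supp y \ supp z).Infinite →
      Disjoint (tbs y f1) (tbs z f2) := by
    intro y z f1 f2 hf1 hf2 hyT hzT hD1 hD2
    have hF1 : ∀ n, FF g y (up (h0 y)) n ≤ f1 n := fun n =>
      ((le_max_left _ _).trans (le_max_right _ _)).trans (hf1 n)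
    have hF2 : ∀ n, FF g z (up (h0 z)) n ≤ f2 n := fun n =>
      ((le_max_left _ _).trans (le_max_right _ _)).trans (hf2 n)
    rcases hyT with hyT | hy
    · exact disjoint_of_tame hyT hF1 hF2 hD1 hD2
    rcases hzT with hzT | hz
    · exact (disjoint_of_tame hzT hF2 hF1 hD2 hD1).symm
    by_cases hcof : {n | n ∉ supp y ∧ n ∉ supp z}.Finite
    · exact disjoint_of_cofinite hF1 hF2 hD1 hD2 hcof
    obtain ⟨k1, hk1⟩ := bound_symmDiff hy.2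
    obtain ⟨k2, hk2⟩ := bound_symmDiff hz.2
    have hkk : ∀ n, max k1 k2 ≤ n → (n ∈ supp y ↔ n ∈ w y) ∧ (n ∈ supp z ↔ n ∈ w z) := fun n hn =>
      ⟨hk1 n ((le_max_left _ _).trans hn), hk2 n ((le_max_right _ _).trans hn)⟩
    have a1 : (w z \ w y).Infinite := infinite_of_bound hD1 (k := max k1 k2) fun n hn h =>
      ⟨(hkk n hn).2.1 h.1, fun h' => h.2 ((hkk n hn).1.2 h')⟩
    have a2 : (w y \ w z).Infinite := infinite_of_bound hD2 (k := max k1 k2) fun n hn h =>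
      ⟨(hkk n hn).1.1 h.1, fun h' => h.2 ((hkk n hn).2.2 h')⟩
    have a3 : ((w z ∪ w y)ᶜ).Infinite := infinite_of_bound (k := max k1 k2) hcof fun n hn h h' => by
      rcases h' with h' | h'
      · exact h.2 ((hkk n hn).2.2 h')
      · exact h.1 ((hkk n hn).1.2 h')
    have a3' : ((w y ∪ w z)ᶜ).Infinite := by rwa [union_comm]
    have hSd : w y ∈ S (w z) ∨ w z ∈ S (w y) → Disjoint (tbs y f1) (tbs z f2) := by
      rintro (h | h)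
      · exact hSdir y z f1 f2 hf1 hf2 hy hz a1 a2 h
      · exact (hSdir z y f2 f1 hf2 hf1 hz hy a2 a1 h).symm
    rcases le_total (ρ y) (ρ z) with h | h
    · exact hdir y z f1 f2 hf1 hf2 hy hz hSd a1 a2 a3 h
    · exact (hdir z y f2 f1 hf2 hf1 hz hy (fun h' => (hSd h'.symm).symm) a2 a1 a3' h).symm
  exact zorn_core A U (fun x => base (rep x)) (fun x => C0 (rep x))
    (fun x y h => by simp only [rep_eq h]) (fun x y h => by simp only [rep_eq h])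
    (fun x hx j => (hC0 (rep x) (hrA x hx)).1 j) (fun x hx j => (hC0 (rep x) (hrA x hx)).2.1 j)
    (fun x hx i j h => (hC0 (rep x) (hrA x hx)).2.2.1 i j h)
    (fun x hx => by
      rw [htr]
      exact (tbs_anti (rep x) fun n => le_max_left _ _).trans (hC0 (rep x) (hrA x hx)).2.2.2)
    (fun x hx z hz f1 f2 hf1 hf2 hne => by
      rw [htr x, htr z] at hne ⊢
      have h1 := mem_or_mem (x := rep x) (z := rep z) (f := f1) (g := f2) (fun hD1 hD2 =>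
        hdelta (rep x) (rep z) f1 f2 hf1 hf2 (hw (rep x) (hrA x hx)) (hw (rep z) (hrA z hz))
          hD1 hD2) hne
      rcases h1 with h1 | h1
      · exact Or.inl (tbs_sat h1 (eqf_rep z).symm)
      · exact Or.inr (tbs_sat h1 (eqf_rep x).symm))
    hb

end Pool.Agent.H60.BXP
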