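import Pool.Agent.H60.BXP.Zorn

/-!
# The box power of `ω + 1`: disjoint refinements with closed union
-/

set_option autoImplicit false

open Topology Set Cardinal

namespace Pool.Agent.H60.BXP

open Pool.Agent.H96.BN Pool.Agent.H58.BP

theorem zorn_core2 (A : Set (ℕ → ℕ∞)) (U : Set (Set (ℕ → ℕ∞)))
    (f : (ℕ → ℕ∞) → ℕ → ℕ) (C : (ℕ → ℕ∞) → ℕ → Set (ℕ → ℕ∞))
    (hf : ∀ x y, Eqf x y → f x = f y) (hC : ∀ x y, Eqf x y → C x = C y)
    (hCo : ∀ x ∈ A, ∀ j, IsOpen[boxTop] (C x j)) (hCU : ∀ x ∈ A, ∀ j, ∃ W ∈ U, C x j ⊆ W)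
    (hCd : ∀ x ∈ A, ∀ i j, i ≠ j → Disjoint (C x i) (C x j))
    (hCc : ∀ x ∈ A, tbs x (f x) ⊆ ⋃ j, C x j)
    (hT : ∀ x ∈ A, ∀ z, ∀ g g' : ℕ → ℕ, (∀ n, f x n ≤ g n) → (∀ n, f z n ≤ g' n) →
      (tbs x g ∩ tbs z g').Nonempty → z ∈ tbs x g ∨ x ∈ tbs z g')
    (hNA : ∀ w, w ∉ A → Disjoint (tbs w (f w)) A)
    (hnest : ∀ w, w ∉ A → ∀ z ∈ A, w ∈ tbs z (f z) → tbs w (f w) ⊆ tbs z (f z))
    (hnb : ¬ AllBdd) :
    ∃ R : Set (Set (ℕ → ℕ∞)), (∀ V ∈ R, IsOpen[boxTop] V ∧ ∃ W ∈ U, V ⊆ W) ∧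
      (∀ V ∈ R, ∀ W ∈ R, V ≠ W → Disjoint V W) ∧ A ⊆ ⋃₀ R ∧
      ∀ w, w ∉ ⋃₀ R → Disjoint (tbs w (f w)) (⋃₀ R) := by
  classical
  set N : (ℕ → ℕ∞) → Set (ℕ → ℕ∞) := fun x => tbs x (f x) with hN
  have hNc : ∀ x y, Eqf x y → N x = N y := by
    intro x y hxy
    rw [hN]
    simp only
    rw [hf x y hxy, tbs_congr _ hxy]
  set Good : Set (Set (Set (ℕ → ℕ∞))) := {P | (∀ V ∈ P, IsOpen[boxTop] V ∧ ∃ W ∈ U, V ⊆ W) ∧
      (∀ V ∈ P, ∀ W ∈ P, V ≠ W → Disjoint V W) ∧ ∀ w, w ∉ ⋃₀ P → Disjoint (N w) (⋃₀ P)}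
    with hGood
  obtain ⟨P, hP⟩ := zorn_subset Good (by
    intro c hc hchain
    refine ⟨⋃₀ c, ⟨?_, ?_, ?_⟩, fun s hs => subset_sUnion_of_mem hs⟩
    · rintro V ⟨Q, hQ, hV⟩
      exact (hc hQ).1 V hV
    · rintro V ⟨Q, hQ, hV⟩ W ⟨Q', hQ', hW⟩ hne
      rcases hchain.total hQ hQ' with h | h
      · exact (hc hQ').2.1 V (h hV) W hW hne
      · exact (hc hQ).2.1 V hV W (h hW) hne
    · intro w hwc
      rw [Set.disjoint_left]
      rintro v hv ⟨V, ⟨Q, hQ, hV⟩, hvV⟩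
      have h1 : w ∉ ⋃₀ Q := fun ⟨V', hV', hwV'⟩ => hwc ⟨V', ⟨Q, hQ, hV'⟩, hwV'⟩
      exact Set.disjoint_left.1 ((hc hQ).2.2 w h1) hv ⟨V, hV, hvV⟩)
  obtain ⟨hP1, hP2, hP3⟩ := hP.prop
  refine ⟨P, hP1, hP2, ?_, hP3⟩
  intro y hy
  by_contra hyP
  -- the relation
  set S : (ℕ → ℕ∞) → (ℕ → ℕ∞) → Prop := fun x z => x ∈ A ∧ x ∉ ⋃₀ P ∧ z ∈ A ∧ z ∉ ⋃₀ P ∧ z ∈ N x
    with hS
  have hSc : ∀ x x' z, S x z → S x' z → S x x' ∨ S x' x := by
    rintro x x' z ⟨a1, a2, a3, a4, a5⟩ ⟨b1, b2, b3, b4, b5⟩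
    rcases hT x a1 x' (f x) (f x') (fun _ => le_rfl) (fun _ => le_rfl) ⟨z, a5, b5⟩ with h | h
    · exact Or.inl ⟨a1, a2, b1, b2, h⟩
    · exact Or.inr ⟨b1, b2, a1, a2, h⟩
  have hExt : ∀ {x z}, Relation.ReflTransGen S x z → Ext x z := by
    intro x z h
    induction h with
    | refl => exact Ext.refl x
    | tail _ h2 ih => exact ih.trans (ext_of_mem h2.2.2.2.2)
  have hmemA : ∀ {x z}, x ∈ A → Relation.ReflTransGen S x z → z ∈ A := by
    intro x z hx h
    induction h with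
    | refl => exact hx
    | tail _ h2 _ => exact h2.2.2.1
  have hD : ∀ {x}, Relation.ReflTransGen S x y → x ∈ A ∧ x ∉ ⋃₀ P := by
    intro x h
    rcases Relation.ReflTransGen.cases_head h with h1 | ⟨c, h1, _⟩
    · rw [h1]
      exact ⟨hy, hyP⟩
    · exact ⟨h1.1, h1.2.1⟩
  set E : (ℕ → ℕ∞) → Set (ℕ → ℕ∞) := fun x =>
    {x' | Relation.ReflTransGen S x' y ∧ Relation.ReflTransGen S x x' ∧ ¬ Eqf x x'} with hE
  set MM : (ℕ → ℕ∞) → Set (ℕ → ℕ∞) := fun x =>
    {w | ∃ x' ∈ E x, ∃ z, Relation.ReflTransGen S x' z ∧ w ∈ N z} with hMM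
  set Px : (ℕ → ℕ∞) → Set (ℕ → ℕ∞) := fun x => N x ∩ (closure[boxTop] (MM x))ᶜ with hPx
  -- tubes
  have htube : ∀ x, Relation.ReflTransGen S x y →
      ∃ g : ℕ → ℕ, (∀ n, f x n ≤ g n) ∧ Disjoint (tbs x g) (MM x) := by
    intro x hx
    have h1 : ∃ h : ℕ → ℕ, ∀ x' ∈ E x, x' ∉ tbs x h := by
      by_contra hcon
      push Not at hcon
      refine hnb (bdd_of_chain x y (E x) (fun x' hx' => hExt hx'.2.1) (fun x' hx' => hExt hx'.1)
        (fun x' hx' x'' hx'' => ?_) (fun x' hx' => hx'.2.2) hcon)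
      rcases confl hSc hx'.1 hx''.1 with h | h
      · exact Or.inl (hExt h)
      · exact Or.inr (hExt h)
    obtain ⟨h, hh⟩ := h1
    refine ⟨fun n => max (f x n) (h n), fun n => le_max_left _ _, ?_⟩
    rw [Set.disjoint_left]
    rintro w hw ⟨x', hx', z, hz, hwz⟩
    have hzA : z ∈ A := hmemA (hD hx'.1).1 hz
    rcases hT x (hD hx).1 z _ (f z) (fun n => le_max_left _ _) (fun _ => le_rfl)
      ⟨w, hw, hwz⟩ with h2 | h2
    · have h3 := mem_tbs_between (hExt hx'.2.1) (hExt hz) h2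
      exact hh x' hx' (tbs_anti x (fun n => le_max_right _ _) h3)
    · have h3 : Ext x' x := (hExt hz).trans (ext_of_mem h2)
      exact hx'.2.2 ((hExt hx'.2.1).antisymm h3)
  have hself : ∀ x, Relation.ReflTransGen S x y → x ∈ Px x := by
    intro x hx
    obtain ⟨g, hg1, hg2⟩ := htube x hx
    refine ⟨mem_tbs x (f x), fun hcl => ?_⟩
    exact Set.disjoint_left.1 (tube_disjoint hg2) (mem_tbs x g) hcl
  -- the class
  have hEc : ∀ x x', Relation.ReflTransGen S x y → Relation.ReflTransGen S x' y → Eqf x x' →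
      E x ⊆ E x' := by
    rintro x x' hx hx' hxx' x'' ⟨h1, h2, h3⟩
    refine ⟨h1, ?_, fun h => h3 (hxx'.trans h)⟩
    rcases Relation.ReflTransGen.cases_head h2 with h4 | ⟨c, h4, h5⟩
    · exact absurd (h4 ▸ Eqf.refl x) h3
    · refine Relation.ReflTransGen.head ?_ h5
      exact ⟨(hD hx').1, (hD hx').2, h4.2.2.1, h4.2.2.2.1, (hNc x x' hxx') ▸ h4.2.2.2.2⟩
  have hPc : ∀ x x', Relation.ReflTransGen S x y → Relation.ReflTransGen S x' y → Eqf x x' →
      Px x = Px x' := by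
    intro x x' hx hx' hxx'
    have h1 : E x = E x' := Subset.antisymm (hEc x x' hx hx' hxx') (hEc x' x hx' hx hxx'.symm)
    have h2 : MM x = MM x' := by
      rw [hMM]
      simp only
      rw [h1]
    rw [hPx]
    simp only
    rw [h2, hNc x x' hxx']
  have hPd : ∀ x x', Relation.ReflTransGen S x y → Relation.ReflTransGen S x' y → ¬ Eqf x x' →
      Disjoint (Px x) (Px x') := by
    have key : ∀ x x', Relation.ReflTransGen S x' y → Relation.ReflTransGen S x x' →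
        ¬ Eqf x x' → Disjoint (Px x) (Px x') := by
      intro x x' hx' hxx' hne
      rw [Set.disjoint_left]
      rintro w ⟨_, hw2⟩ ⟨hw3, _⟩
      exact hw2 (@subset_closure _ boxTop _ _ ⟨x', ⟨hx', hxx', hne⟩, x', Relation.ReflTransGen.refl, hw3⟩)
    intro x x' hx hx' hne
    rcases confl hSc hx hx' with h | h
    · exact key x x' hx' h hne
    · exact (key x' x hx h fun h' => hne h'.symm).symm
  -- the larger family
  set P2 : Set (Set (ℕ → ℕ∞)) := P ∪ {V | ∃ x, Relation.ReflTransGen S x y ∧ ∃ j,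
    V = Px x ∩ C x j} with hP2d
  have hcov : ∀ x, Relation.ReflTransGen S x y → ∀ w ∈ Px x, w ∈ ⋃₀ P2 := by
    intro x hx w hw
    obtain ⟨j, hj⟩ := mem_iUnion.1 (hCc x (hD hx).1 hw.1)
    exact ⟨Px x ∩ C x j, Or.inr ⟨x, hx, j, rfl⟩, hw, hj⟩
  have hPN : ∀ x, Relation.ReflTransGen S x y → Disjoint (Px x) (⋃₀ P) := fun x hx =>
    (hP3 x (hD hx).2).mono_left inter_subset_left
  have hG2 : P2 ∈ Good := by
    refine ⟨?_, ?_, ?_⟩
    · rintro V (hV | ⟨x, hx, j, rfl⟩)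
      · exact hP1 V hV
      · refine ⟨?_, ?_⟩
        · refine @IsOpen.inter _ boxTop _ _ (@IsOpen.inter _ boxTop _ _ (isOpen_tbs x (f x)) ?_)
            (hCo x (hD hx).1 j)
          exact (@isOpen_compl_iff _ _ boxTop).2 (@isClosed_closure _ boxTop _)
        · obtain ⟨W, hW, hCW⟩ := hCU x (hD hx).1 j
          exact ⟨W, hW, inter_subset_right.trans hCW⟩
    · rintro V (hV | ⟨x, hx, j, rfl⟩) W (hW | ⟨x', hx', j', rfl⟩) hne
      · exact hP2 V hV W hW hne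
      · exact ((hPN x' hx').mono inter_subset_left (subset_sUnion_of_mem hV)).symm
      · exact (hPN x hx).mono inter_subset_left (subset_sUnion_of_mem hW)
      · by_cases hxx' : Eqf x x'
        · rw [hC x x' hxx'] at hne ⊢
          rw [hPc x x' hx hx' hxx'] at hne ⊢
          have hjj : j ≠ j' := fun h => hne (by rw [h])
          exact (hCd x' (hD hx').1 j j' hjj).mono inter_subset_right inter_subset_right
        · exact (hPd x x' hx hx' hxx').mono inter_subset_left inter_subset_left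
    · intro w hwP2
      have hwP : w ∉ ⋃₀ P := fun ⟨V, hV, hwV⟩ => hwP2 ⟨V, Or.inl hV, hwV⟩
      rw [Set.disjoint_left]
      rintro v hv ⟨V, hV | ⟨x, hx, j, rfl⟩, hvV⟩
      · exact Set.disjoint_left.1 (hP3 w hwP) hv ⟨V, hV, hvV⟩
      · have hvP : v ∈ Px x := hvV.1
        rcases hT x (hD hx).1 w (f x) (f w) (fun _ => le_rfl) (fun _ => le_rfl)
          ⟨v, hvP.1, hv⟩ with h | h
        · -- `w` in the tube of `x`
          have hwcl : w ∈ closure[boxTop] (MM x) := by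
            by_contra hcon
            exact hwP2 (hcov x hx w ⟨h, hcon⟩)
          have h1 := (@mem_closure_iff _ boxTop _ _).1 hwcl (N w) (isOpen_tbs w (f w))
            (mem_tbs w (f w))
          obtain ⟨u, huw, x', hx', z, hz, huz⟩ := h1
          have hzA : z ∈ A := hmemA (hD hx'.1).1 hz
          by_cases hw : w ∈ A
          swap
          · rcases hT z hzA w (f z) (f w) (fun _ => le_rfl) (fun _ => le_rfl)
              ⟨u, huz, huw⟩ with h2 | h2
            · exact hvP.2 (@subset_closure _ boxTop _ _ ⟨x', hx', z, hz, hnest w hw z hzA h2 hv⟩)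
            · exact Set.disjoint_left.1 (hNA w hw) h2 hzA
          have hzP : z ∉ ⋃₀ P := by
            rcases Relation.ReflTransGen.cases_tail hz with h2 | ⟨c, _, h2⟩
            · rw [h2]
              exact (hD hx'.1).2
            · exact h2.2.2.2.1
          have hfin : Relation.ReflTransGen S x' w → False := by
            intro h2
            exact hvP.2 (@subset_closure _ boxTop _ _ ⟨x', hx', w, h2, hv⟩)
          rcases hT z hzA w (f z) (f w) (fun _ => le_rfl) (fun _ => le_rfl)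
            ⟨u, huz, huw⟩ with h2 | h2
          · exact hfin (hz.tail ⟨hzA, hzP, hw, hwP, h2⟩)
          · have h3 : Relation.ReflTransGen S w z :=
              Relation.ReflTransGen.single ⟨hw, hwP, hzA, hzP, h2⟩
            rcases confl hSc hz h3 with h4 | h4
            · exact hfin h4
            · exact hwP2 (hcov w (h4.trans hx'.1) w (hself w (h4.trans hx'.1)))
        · have hw : w ∈ A := by
            by_contra hw
            exact Set.disjoint_left.1 (hNA w hw) h (hD hx).1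
          have h1 : Relation.ReflTransGen S w y :=
            Relation.ReflTransGen.head ⟨hw, hwP, (hD hx).1, (hD hx).2, h⟩ hx
          exact hwP2 (hcov w h1 w (hself w h1))
  have hsub : P2 ⊆ P := hP.le_of_ge hG2 subset_union_left
  obtain ⟨V, hV, hyV⟩ := hcov y Relation.ReflTransGen.refl y (hself y Relation.ReflTransGen.refl)
  exact hyP ⟨V, hsub hV, hyV⟩

end Pool.Agent.H60.BXP
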