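import Pool.Agent.H60.BXP.Final3
import Pool.Agent.H60.BXP.Zorn2

/-!
# The box power of `ω + 1`: one-sided separation
-/

set_option autoImplicit false

open Topology Set Cardinal

namespace Pool.Agent.H60.BXP

open Pool.Agent.H96.BN Pool.Agent.H58.BP

/-- `V` is contained in `W` up to a finite set, or conversely -/
def CompF (V W : Set ℕ) : Prop := (V \ W).Finite ∨ (W \ V).Finite

theorem bdd_countable {α : Type} {Q : Set α} (hQ : Q.Countable) (B : α → ℕ → ℕ) :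
    ∃ F : ℕ → ℕ, ∀ q ∈ Q, ∃ k, ∀ n, k ≤ n → B q n ≤ F n := by
  rcases Q.eq_empty_or_nonempty with rfl | hne
  · exact ⟨id, fun q hq => absurd hq (notMem_empty q)⟩
  obtain ⟨e, he⟩ := hQ.exists_eq_range hne
  refine ⟨fun n => (Finset.range (n + 1)).sup fun i => B (e i) n, fun q hq => ?_⟩
  rw [he] at hq
  obtain ⟨i, rfl⟩ := hq
  exact ⟨i, fun n hn => Finset.le_sup (f := fun i => B (e i) n) (Finset.mem_range.2 (by omega))⟩

/-- if `z` is in a tube of `x` and is not `x` up to finitely many places then it has infinitely many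
new finite places -/
theorem infinite_new {x z : ℕ → ℕ∞} {f : ℕ → ℕ} (h : z ∈ tbs x f) (hne : ¬ Eqf z x) :
    (supp x \ supp z).Infinite := by
  intro hfin
  obtain ⟨k, hk⟩ := finite_bound hfin
  obtain ⟨k', hk'⟩ := h
  refine hne ⟨max k k', fun n hn => ?_⟩
  have e1 : k ≤ n := (le_max_left _ _).trans hn
  have e2 : k' ≤ n := (le_max_right _ _).trans hn
  by_cases hx : x n = ⊤
  · have hz : z n = ⊤ := by
      by_contra hz
      exact hk n e1 ⟨hx, hz⟩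
    rw [hx, hz]
  · exact (hk' n e2).1 hx

theorem tbs_nest {w z : ℕ → ℕ∞} {f f' : ℕ → ℕ} (hw : w ∈ tbs z f)
    (h : ∃ k, ∀ n, k ≤ n → f n ≤ f' n) : tbs w f' ⊆ tbs z f := by
  obtain ⟨k, hk⟩ := h
  obtain ⟨k1, hk1⟩ := hw
  rintro v ⟨k2, hk2⟩
  refine ⟨max k (max k1 k2), fun n hn => ?_⟩
  have e0 : k ≤ n := (le_max_left _ _).trans hn
  have e1 : k1 ≤ n := ((le_max_left _ _).trans (le_max_right _ _)).trans hn
  have e2 : k2 ≤ n := ((le_max_right _ _).trans (le_max_right _ _)).trans hn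
  refine ⟨fun hz => ?_, fun hz => ?_⟩
  · have h1 := (hk1 n e1).1 hz
    rw [← h1]
    exact (hk2 n e2).1 (by rw [h1]; exact hz)
  · have h1 := (hk1 n e1).2 hz
    by_cases hwn : w n = ⊤
    · exact lt_of_le_of_lt (by exact_mod_cast hk n e0) ((hk2 n e2).2 hwn)
    · rw [(hk2 n e2).1 hwn]
      exact h1

theorem one_sided (g : ℕ → ℕ → ℕ) (S : Set (ℕ → ℕ∞)) (𝒲 : Set (Set ℕ)) (hS : #S < dd)
    (h𝒲 : #𝒲 < dd) (hch : ∀ 𝒞 ⊆ 𝒲, (∀ V ∈ 𝒞, ∀ W ∈ 𝒞, CompF V W) → 𝒞.Countable)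
    (H K : Set (ℕ → ℕ∞)) (hH : IsClosed[boxTop] H) (hK : IsClosed[boxTop] K) (hd : Disjoint H K)
    (hHS : ∀ x ∈ H, Tame g x ∨ x ∈ S ∨ ∃ W ∈ 𝒲, (symmDiff (supp x) W).Finite) :
    @SeparatedNhds _ boxTop H K := by
  classical
  by_cases hb : AllBdd
  · obtain ⟨ρ, hρ⟩ := rank_of_allBdd hb
    exact sep_of_rank hH hK hd (subset_univ H) ρ
      (fun z _ => by
        obtain ⟨h, hh⟩ := hρ z
        exact ⟨h, fun y _ hy => hh y hy⟩)
      (fun z _ hz => absurd (mem_univ z) hz)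
  set A : Set (ℕ → ℕ∞) := sat H with hA
  have hAs : Sat A := Sat_sat _
  have hAc : IsClosed[boxTop] A := isClosed_sat hH
  have hAx : ∀ x ∈ A, (Tame g x ∨ ∃ y ∈ S, Eqf x y) ∨ ∃ W ∈ 𝒲, (symmDiff (supp x) W).Finite := by
    rintro x ⟨y, hy, hxy⟩
    rcases hHS y hy with h | h | ⟨W, hW1, hW2⟩
    · exact Or.inl (Or.inl (h.eqf hxy.symm))
    · exact Or.inl (Or.inr ⟨y, h, hxy⟩)
    · exact Or.inr ⟨W, hW1, symmDiff_trans_finite (supp_eqf hxy) hW2⟩
  -- catching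
  set 𝒱 : Set (Set ℕ) := 𝒲 ∪ supp '' S with h𝒱
  have h𝒱c : #𝒱 < dd := lt_of_le_of_lt (mk_union_le _ _)
    (Cardinal.add_lt_of_lt aleph0_le_dd h𝒲 (lt_of_le_of_lt mk_image_le hS))
  have hh0 : ∀ z : ℕ → ℕ∞, ∃ h : ℕ → ℕ,
      (∀ W ∈ 𝒱, ∀ K, ∃ k, K ≤ k ∧ nx (W \ supp z) (nx (supp z \ W) k) < h k) ∧
      (∀ y ∈ S, ∀ K, ∃ k, K ≤ k ∧ (y (nx (supp z \ supp y) k)).toNat < h k) := by
    intro z
    obtain ⟨h, hh⟩ := exists_nondom (Φ :=
      ((fun (W : Set ℕ) (k : ℕ) => nx (W \ supp z) (nx (supp z \ W) k)) '' 𝒱) ∪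
      ((fun (y : ℕ → ℕ∞) (k : ℕ) => (y (nx (supp z \ supp y) k)).toNat) '' S))
      (lt_of_le_of_lt (mk_union_le _ _) (Cardinal.add_lt_of_lt aleph0_le_dd
        (lt_of_le_of_lt mk_image_le h𝒱c) (lt_of_le_of_lt mk_image_le hS)))
    exact ⟨h, fun W hW => hh _ (Or.inl ⟨W, hW, rfl⟩), fun y hy => hh _ (Or.inr ⟨y, hy, rfl⟩)⟩
  choose h0 hh1 hh2 using hh0
  -- local refinements
  set U : Set (Set (ℕ → ℕ∞)) := {Kᶜ, Hᶜ} with hU
  have hUo : ∀ V ∈ U, IsOpen[boxTop] V := by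
    rintro V (rfl | hV)
    · exact (@isOpen_compl_iff _ _ boxTop).2 hK
    · rw [mem_singleton_iff] at hV
      rw [hV]
      exact (@isOpen_compl_iff _ _ boxTop).2 hH
  have hUc : ∀ y : ℕ → ℕ∞, ∃ V ∈ U, y ∈ V := by
    intro y
    by_cases hy : y ∈ K
    · exact ⟨Hᶜ, by simp [hU], fun h => Set.disjoint_left.1 hd h hy⟩
    · exact ⟨Kᶜ, by simp [hU], hy⟩
  choose f0 C0 hC0 using fun z : ℕ → ℕ∞ => local_ref U hUo z fun y _ => hUc y
  have hf1 : ∀ z : ℕ → ℕ∞, ∃ f : ℕ → ℕ, z ∉ A → Disjoint (tbs z f) A := by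
    intro z
    by_cases hz : z ∈ A
    · exact ⟨id, fun h => absurd hz h⟩
    · obtain ⟨f, hf⟩ := tubes ((@isOpen_compl_iff _ _ boxTop).2 hAc) z
        fun y hy hyA => hz (hAs y hyA z hy.symm)
      exact ⟨f, fun _ => Set.disjoint_left.2 fun v hv => hf hv⟩
  choose f1 hf1 using hf1
  set base : (ℕ → ℕ∞) → ℕ → ℕ := fun z n =>
    max (max (f0 z n) (f1 z n)) (max (FF g z (up (h0 z)) n) (up (h0 z) n)) with hbase
  have hrA : ∀ x, x ∈ A ↔ rep x ∈ A := fun x =>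
    ⟨fun hx => hAs x hx (rep x) (eqf_rep x), fun hx => hAs _ hx x (eqf_rep x).symm⟩
  have htr : ∀ (x : ℕ → ℕ∞) (f : ℕ → ℕ), tbs x f = tbs (rep x) f := fun x f =>
    tbs_congr f (eqf_rep x).symm
  set B : (ℕ → ℕ∞) → ℕ → ℕ := fun x => base (rep x) with hB
  have hBc : ∀ x y, Eqf x y → B x = B y := fun x y h => by simp only [hB, rep_eq h]
  have hBF : ∀ (x : ℕ → ℕ∞) (n : ℕ), FF g (rep x) (up (h0 (rep x))) n ≤ B x n := fun x n =>
    (le_max_left _ _).trans (le_max_right _ _)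
  have hBh : ∀ (x : ℕ → ℕ∞) (n : ℕ), up (h0 (rep x)) n ≤ B x n := fun x n =>
    (le_max_right _ _).trans (le_max_right _ _)
  -- tubes
  have hT0 : ∀ x ∈ A, ∀ z, ∀ g1 g2 : ℕ → ℕ, (∀ n, B x n ≤ g1 n) → (∀ n, B z n ≤ g2 n) →
      (tbs x g1 ∩ tbs z g2).Nonempty → z ∈ tbs x g1 ∨ x ∈ tbs z g2 := by
    intro x hx z g1 g2 hg1 hg2 hne
    rw [htr x, htr z] at hne ⊢
    have hF1 : ∀ n, FF g (rep x) (up (h0 (rep x))) n ≤ g1 n := fun n => (hBF x n).trans (hg1 n)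
    have hF2 : ∀ n, FF g (rep z) (up (h0 (rep z))) n ≤ g2 n := fun n => (hBF z n).trans (hg2 n)
    have hset : ∀ W ∈ 𝒱, (symmDiff (supp (rep x)) W).Finite →
        (supp (rep z) \ supp (rep x)).Infinite → (supp (rep x) \ supp (rep z)).Infinite →
        Disjoint (tbs (rep x) g1) (tbs (rep z) g2) := by
      intro W hW hxW hD1 hD2
      obtain ⟨k1, hk1⟩ := bound_symmDiff hxW
      have a1 : (supp (rep z) \ W).Infinite := infinite_of_bound hD1 (k := k1) fun n hn h =>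
        ⟨h.1, fun h' => h.2 ((hk1 n hn).2 h')⟩
      have a2 : (W \ supp (rep z)).Infinite := infinite_of_bound hD2 (k := k1) fun n hn h =>
        ⟨(hk1 n hn).1 h.1, h.2⟩
      refine disjoint_of_set hF1 hF2 (Set.infinite_of_forall_exists_gt fun c => ?_)
      obtain ⟨k, hk, hlt⟩ := hh1 (rep z) W hW (max k1 (c + 1))
      have e1 : k1 ≤ k := (le_max_left _ _).trans hk
      have e3 : c + 1 ≤ k := (le_max_right _ _).trans hk
      obtain ⟨c1, c2⟩ := nx_spec a1 k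
      obtain ⟨c3, c4⟩ := nx_spec a2 (nx (supp (rep z) \ W) k)
      refine ⟨nx (supp (rep z) \ W) k, ⟨⟨c2.1, fun h => c2.2 ((hk1 _ (e1.trans c1)).1 h)⟩,
        nx (W \ supp (rep z)) (nx (supp (rep z) \ W) k),
        ⟨(hk1 _ ((e1.trans c1).trans c3)).2 c4.1, c4.2⟩, c3, ?_⟩, by omega⟩
      exact hlt.le.trans (le_up (h0 (rep z)) c1)
    have h1 := mem_or_mem (x := rep x) (z := rep z) (f := g1) (g := g2) (fun hD1 hD2 => by
      rcases hAx (rep x) ((hrA x).1 hx) with (h | ⟨y, hy, hxy⟩) | ⟨W, hW1, hW2⟩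
      · exact disjoint_of_tame h hF1 hF2 hD1 hD2
      · exact hset (supp y) (Or.inr ⟨y, hy, rfl⟩) (supp_eqf hxy) hD1 hD2
      · exact hset W (Or.inl hW1) hW2 hD1 hD2) hne
    rcases h1 with h1 | h1
    · exact Or.inl (tbs_sat h1 (eqf_rep z).symm)
    · exact Or.inr (tbs_sat h1 (eqf_rep x).symm)
  have hNA0 : ∀ w, w ∉ A → Disjoint (tbs w (B w)) A := by
    intro w hw
    rw [htr w]
    refine (hf1 (rep w) fun h => hw ((hrA w).2 h)).mono_left (tbs_anti _ fun n => ?_)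
    exact (le_max_right _ _).trans (le_max_left _ _)
  -- special points are in no other tubes
  have hL : ∀ x z : ℕ → ℕ∞, {n | x n ≠ ⊤}.Infinite → (Tame g z ∨ ∃ y ∈ S, Eqf z y) →
      z ∈ tbs x (B x) → Eqf z x := by
    intro x z hx hz hzx
    by_contra hne
    rw [htr x] at hzx
    have hne' : ¬ Eqf z (rep x) := fun h => hne (h.trans (eqf_rep x))
    have hinf := infinite_new hzx hne'
    have hx' : {n | rep x n ≠ ⊤}.Infinite := by
      obtain ⟨k, hk⟩ := eqf_rep x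
      refine infinite_of_bound hx (k := k) fun n hn h => ?_
      change rep x n ≠ ⊤
      rw [hk n hn]
      exact h
    obtain ⟨k1, hk1⟩ := hzx
    rcases hz with ⟨k2, hk2⟩ | ⟨y, hy, k2, hk2⟩
    · obtain ⟨m, hm, hkm⟩ := hinf.exists_gt (max k1 k2)
      have e1 : k1 ≤ m := (le_max_left _ _).trans hkm.le
      have e2 : k2 ≤ m := (le_max_right _ _).trans hkm.le
      obtain ⟨b1, b2⟩ := nf_spec hx' m
      have c1 := (hk1 m e1).2 hm.1
      have c2 := (hk1 _ (e1.trans b1.le)).1 b2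
      have hzm : z m ≠ ⊤ := hm.2
      have c3 := hk2 m (nf (rep x) m) e2 b1 hzm (by rw [c2]; exact b2)
      rw [c2] at c3
      have c4 : g (nf (rep x) m) (rep x (nf (rep x) m)).toNat ≤ B x m :=
        ((le_FF g (rep x) (up (h0 (rep x))) (n := m) (i := nf (rep x) m)
          (Or.inr (Or.inr le_rfl))).2).trans (hBF x m)
      have c5 : ((g (nf (rep x) m) (rep x (nf (rep x) m)).toNat : ℕ) : ℕ∞) ≤ (B x m : ℕ∞) := by
        exact_mod_cast c4
      exact absurd (lt_of_lt_of_le c1 (c3.trans c5)) (lt_irrefl _)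
    · have hinf' : (supp (rep x) \ supp y).Infinite := infinite_of_bound hinf (k := k2)
        fun n hn h => ⟨h.1, fun h' => h.2 ((hk2 n hn).trans h')⟩
      obtain ⟨k, hk, hlt⟩ := hh2 (rep x) y hy (max k1 k2)
      have e1 : k1 ≤ k := (le_max_left _ _).trans hk
      have e2 : k2 ≤ k := (le_max_right _ _).trans hk
      obtain ⟨b1, b2⟩ := nx_spec hinf' k
      set m := nx (supp (rep x) \ supp y) k with hm
      have c1 := (hk1 m (e1.trans b1)).2 b2.1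
      have c2 := hk2 m (e2.trans b1)
      have hym : y m ≠ ⊤ := b2.2
      rw [c2, ← ENat.natCast_toNat hym] at c1
      have c3 : B x m < (y m).toNat := by exact_mod_cast c1
      have c4 : up (h0 (rep x)) m ≤ B x m := hBh x m
      have c5 : h0 (rep x) k ≤ up (h0 (rep x)) m := le_up _ b1
      omega
  -- the predecessors of a point
  set Z : (ℕ → ℕ∞) → Set (ℕ → ℕ∞) := fun w => {z | z ∈ A ∧ w ∈ tbs z (B z)} with hZ
  have hcmp : ∀ w, ∀ z ∈ Z w, ∀ z' ∈ Z w, z' ∈ tbs z (B z) ∨ z ∈ tbs z' (B z') := fun w z hz z' hz' =>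
    hT0 z hz.1 z' (B z) (B z') (fun _ => le_rfl) (fun _ => le_rfl) ⟨w, hz.2, hz'.2⟩
  have hF : ∀ w, ∃ F : ℕ → ℕ, ∀ z ∈ Z w, ∃ k, ∀ n, k ≤ n → B z n ≤ F n := by
    intro w
    -- representatives
    set 𝒞 : Set (Set ℕ) := {W | W ∈ 𝒲 ∧ ∃ z ∈ Z w, (symmDiff (supp z) W).Finite} with h𝒞
    have hext : ∀ {x z : ℕ → ℕ∞}, Ext x z → (supp z \ supp x).Finite := by
      rintro x z ⟨k, hk⟩
      refine (finite_lt_nat k).subset fun n hn => ?_
      by_contra hcon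
      have h1 := hk n (not_lt.1 hcon) hn.2
      exact hn.2 (h1.symm.trans hn.1)
    have h𝒞c : 𝒞.Countable := by
      refine hch 𝒞 (fun W hW => hW.1) ?_
      have key : ∀ {V W : Set ℕ} {z z' : ℕ → ℕ∞}, (symmDiff (supp z) V).Finite →
          (symmDiff (supp z') W).Finite → Ext z z' → (W \ V).Finite := by
        intro V W z z' h1 h2 h3
        obtain ⟨k1, hk1⟩ := bound_symmDiff h1
        obtain ⟨k2, hk2⟩ := bound_symmDiff h2
        obtain ⟨k3, hk3⟩ := finite_bound (hext h3)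
        refine (finite_lt_nat (max k1 (max k2 k3))).subset fun n hn => ?_
        by_contra hcon
        have hcon' : max k1 (max k2 k3) ≤ n := not_lt.1 hcon
        have e1 : k1 ≤ n := (le_max_left _ _).trans hcon'
        have e2 : k2 ≤ n := ((le_max_left _ _).trans (le_max_right _ _)).trans hcon'
        have e3 : k3 ≤ n := ((le_max_right _ _).trans (le_max_right _ _)).trans hcon'
        exact hk3 n e3 ⟨(hk2 n e2).2 hn.1, fun h => hn.2 ((hk1 n e1).1 h)⟩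
      rintro V ⟨_, z, hz, hzV⟩ W ⟨_, z', hz', hzW⟩
      rcases hcmp w z hz z' hz' with h | h
      · exact Or.inr (key hzV hzW (ext_of_mem h))
      · exact Or.inl (key hzW hzV (ext_of_mem h))
    have hzW : ∀ W : Set ℕ, ∃ z : ℕ → ℕ∞, W ∈ 𝒞 → z ∈ Z w ∧ (symmDiff (supp z) W).Finite := by
      intro W
      by_cases hW : W ∈ 𝒞
      · obtain ⟨_, z, h1, h2⟩ := hW
        exact ⟨z, fun _ => ⟨h1, h2⟩⟩
      · exact ⟨fun _ => ⊤, fun h => absurd h hW⟩
    choose zW hzW using hzW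
    have hs : ∃ s : ℕ → ℕ∞, ∀ z ∈ Z w, {n | z n ≠ ⊤}.Infinite →
        (Tame g z ∨ ∃ y ∈ S, Eqf z y) → Eqf s z := by
      by_cases h : ∃ s ∈ Z w, {n | s n ≠ ⊤}.Infinite ∧ (Tame g s ∨ ∃ y ∈ S, Eqf s y)
      · obtain ⟨s, hs1, hs2, hs3⟩ := h
        refine ⟨s, fun z hz1 hz2 hz3 => ?_⟩
        rcases hcmp w z hz1 s hs1 with h | h
        · exact hL z s hz2 hs3 h
        · exact (hL s z hs2 hz3 h).symm
      · push Not at h
        exact ⟨fun _ => ⊤, fun z hz1 hz2 hz3 => absurd hz3 (by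
          have := h z hz1 hz2
          tauto)⟩
    obtain ⟨s, hs⟩ := hs
    set c : ℕ → ℕ∞ := fun _ => ⊤ with hc
    obtain ⟨F, hF⟩ := bdd_countable (Q := {c} ∪ ({s} ∪ zW '' 𝒞))
      ((countable_singleton c).union ((countable_singleton s).union (h𝒞c.image zW))) B
    refine ⟨F, fun z hz => ?_⟩
    have hsuff : (∃ q ∈ ({c} ∪ ({s} ∪ zW '' 𝒞) : Set (ℕ → ℕ∞)), Eqf q z) →
        ∃ k, ∀ n, k ≤ n → B z n ≤ F n := by
      rintro ⟨q, hq, hqz⟩
      rw [← hBc q z hqz]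
      exact hF q hq
    apply hsuff
    by_cases hfin : {n | z n ≠ ⊤}.Infinite
    · by_cases hsp : Tame g z ∨ ∃ y ∈ S, Eqf z y
      · exact ⟨s, Or.inr (Or.inl rfl), hs z hz hfin hsp⟩
      · obtain ⟨W, hW1, hW2⟩ := (hAx z hz.1).resolve_left hsp
        have hWC : W ∈ 𝒞 := ⟨hW1, z, hz, hW2⟩
        obtain ⟨a1, a2⟩ := hzW W hWC
        refine ⟨zW W, Or.inr (Or.inr ⟨W, hWC, rfl⟩), ?_⟩
        obtain ⟨k1, hk1⟩ := bound_symmDiff hW2
        obtain ⟨k2, hk2⟩ := bound_symmDiff a2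
        obtain ⟨k3, hk3⟩ := ext_of_mem hz.2
        obtain ⟨k4, hk4⟩ := ext_of_mem a1.2
        refine ⟨max (max k1 k2) (max k3 k4), fun n hn => ?_⟩
        have e1 : k1 ≤ n := ((le_max_left _ _).trans (le_max_left _ _)).trans hn
        have e2 : k2 ≤ n := ((le_max_right _ _).trans (le_max_left _ _)).trans hn
        have e3 : k3 ≤ n := ((le_max_left _ _).trans (le_max_right _ _)).trans hn
        have e4 : k4 ≤ n := ((le_max_right _ _).trans (le_max_right _ _)).trans hn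
        by_cases hn' : n ∈ W
        · have b1 : zW W n = ⊤ := (hk2 n e2).2 hn'
          have b2 : z n = ⊤ := (hk1 n e1).2 hn'
          rw [b1, b2]
        · have b1 : zW W n ≠ ⊤ := fun h => hn' ((hk2 n e2).1 h)
          have b2 : z n ≠ ⊤ := fun h => hn' ((hk1 n e1).1 h)
          rw [← hk3 n e3 b2, ← hk4 n e4 b1]
    · rw [Set.not_infinite] at hfin
      obtain ⟨k, hk⟩ := finite_bound hfin
      refine ⟨c, Or.inl rfl, k, fun n hn => ?_⟩
      have := hk n hn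
      simp only [mem_ofPred_eq, ne_eq, not_not] at this
      rw [this]
  choose F hF using hF
  set f : (ℕ → ℕ∞) → ℕ → ℕ := fun w n => if w ∈ A then B w n else max (B w n) (F (rep w) n)
    with hf
  have hAeq : ∀ x y, Eqf x y → (x ∈ A ↔ y ∈ A) := fun x y h =>
    ⟨fun hx => hAs x hx y h.symm, fun hy => hAs y hy x h⟩
  have hfB : ∀ x n, B x n ≤ f x n := by
    intro x n
    simp only [hf]
    split_ifs
    · exact le_rfl
    · exact le_max_left _ _
  have hfA : ∀ x ∈ A, f x = B x := by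
    intro x hx
    funext n
    simp only [hf, if_pos hx]
  obtain ⟨R, hR1, hR2, hR3, hR4⟩ := zorn_core2 A U f (fun x => C0 (rep x))
    (fun x y h => by
      funext n
      simp only [hf, hBc x y h, rep_eq h, hAeq x y h])
    (fun x y h => by simp only [rep_eq h])
    (fun x _ j => (hC0 (rep x)).1 j) (fun x _ j => (hC0 (rep x)).2.1 j)
    (fun x _ i j h => (hC0 (rep x)).2.2.1 i j h)
    (fun x hx => by
      rw [hfA x hx, htr]
      exact (tbs_anti (rep x) fun n => (le_max_left _ _).trans (le_max_left _ _)).trans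
        (hC0 (rep x)).2.2.2)
    (fun x hx z g1 g2 hg1 hg2 hne => hT0 x hx z g1 g2 (fun n => (hfB x n).trans (hg1 n))
      (fun n => (hfB z n).trans (hg2 n)) hne)
    (fun w hw => (hNA0 w hw).mono_left (tbs_anti w (hfB w)))
    (fun w hw z hz hwz => by
      rw [hfA z hz] at hwz ⊢
      refine tbs_nest hwz ?_
      have hzZ : z ∈ Z (rep w) := ⟨hz, tbs_sat hwz (eqf_rep w)⟩
      obtain ⟨k, hk⟩ := hF (rep w) z hzZ
      refine ⟨k, fun n hn => (hk n hn).trans ?_⟩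
      simp only [hf, if_neg hw]
      exact le_max_right _ _)
    hb
  have hHA : H ⊆ A := subset_sat _
  have hcase : ∀ V ∈ R, V ⊆ Kᶜ ∨ V ⊆ Hᶜ := by
    intro V hV
    obtain ⟨W, hW, hVW⟩ := (hR1 V hV).2
    rcases hW with rfl | hW
    · exact Or.inl hVW
    · rw [mem_singleton_iff] at hW
      rw [hW] at hVW
      exact Or.inr hVW
  set W1 : Set (ℕ → ℕ∞) := ⋃₀ {V | V ∈ R ∧ V ⊆ Kᶜ} with hW1
  have hW1o : IsOpen[boxTop] W1 := @isOpen_sUnion _ boxTop {V | V ∈ R ∧ V ⊆ Kᶜ}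
    fun V hV => (hR1 V hV.1).1
  refine ⟨W1, (closure[boxTop] W1)ᶜ, hW1o, ?_, ?_, ?_, ?_⟩
  · exact (@isOpen_compl_iff _ _ boxTop).2 (@isClosed_closure _ boxTop _)
  · intro x hx
    obtain ⟨V, hV, hxV⟩ := hR3 (hHA hx)
    refine ⟨V, ⟨hV, ?_⟩, hxV⟩
    rcases hcase V hV with h | h
    · exact h
    · exact absurd hx (h hxV)
  · intro w hw hcl
    by_cases hwR : w ∈ ⋃₀ R
    · obtain ⟨V, hV, hwV⟩ := hwR
      have hVK : ¬ V ⊆ Kᶜ := fun h => h hwV hw
      obtain ⟨v, hvV, V', ⟨hV', hV'K⟩, hvV'⟩ :=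
        (@mem_closure_iff _ boxTop _ _).1 hcl V (hR1 V hV).1 hwV
      have hne : V ≠ V' := fun h => hVK (h ▸ hV'K)
      exact Set.disjoint_left.1 (hR2 V hV V' hV' hne) hvV hvV'
    · obtain ⟨v, hvw, V', ⟨hV', hV'K⟩, hvV'⟩ :=
        (@mem_closure_iff _ boxTop _ _).1 hcl (tbs w (f w)) (isOpen_tbs w (f w)) (mem_tbs w (f w))
      exact Set.disjoint_left.1 (hR4 w hwR) hvw ⟨V', hV', hvV'⟩
  · rw [Set.disjoint_left]
    intro v hv hv'
    exact hv' (@subset_closure _ boxTop _ _ hv)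

end Pool.Agent.H60.BXP
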