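import Pool.Agent.H60.BXP.Chain

/-!
# The box power of `ω + 1`: families of supports
-/

set_option autoImplicit false

open Topology Set Cardinal

namespace Pool.Agent.H60.BXP

open Pool.Agent.H96.BN Pool.Agent.H58.BP

/-- `V` and `W` cross: the four sets cut out by them are infinite -/
def Cross (V W : Set ℕ) : Prop :=
  (V ∩ W).Infinite ∧ (V \ W).Infinite ∧ (W \ V).Infinite ∧ ((V ∪ W)ᶜ).Infinite

theorem Cross.symm {V W : Set ℕ} (h : Cross V W) : Cross W V := by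
  obtain ⟨h1, h2, h3, h4⟩ := h
  exact ⟨by rwa [inter_comm], h3, h2, by rwa [union_comm]⟩

/-- `W` is caught by `V` with the function `h` -/
def SC (h : ℕ → ℕ) (V W : Set ℕ) : Prop :=
  {m | m ∈ V \ W ∧ ∃ n ∈ W \ V, m ≤ n ∧ n ≤ h m}.Infinite

theorem dom_univ : Dom (univ : Set (ℕ → ℕ)) := fun f => ⟨f, mem_univ _, 0, fun _ _ => le_rfl⟩

theorem exists_dom : ∃ F : Set (ℕ → ℕ), Dom F ∧ #F = dd := by
  have h0 : dd ∈ {κ | ∃ F : Set (ℕ → ℕ), Dom F ∧ #F = κ} :=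
    csInf_mem ⟨#(univ : Set (ℕ → ℕ)), univ, dom_univ, rfl⟩
  exact h0

theorem aleph0_le_dd : ℵ₀ ≤ dd := by
  obtain ⟨F, hF, hFd⟩ := exists_dom
  by_contra hcon
  rw [not_le, ← hFd, Cardinal.lt_aleph0_iff_set_finite] at hcon
  obtain ⟨g, hg, k, hk⟩ := hF fun n => (hcon.toFinset.sup fun f => f n) + 1
  have h6 := hk k le_rfl
  have h7 : g k ≤ hcon.toFinset.sup fun f => f k :=
    Finset.le_sup (f := fun f : ℕ → ℕ => f k) (hcon.mem_toFinset.2 hg)
  omega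

theorem catch_of_few {Φ : Set (ℕ → ℕ)} (hΦ : #Φ < dd) : ∃ h : ℕ → ℕ, ∀ φ ∈ Φ, ∀ V W : Set ℕ,
    (∃ K, ∀ k, K ≤ k → ∃ m n, k ≤ m ∧ m ∈ V \ W ∧ n ∈ W \ V ∧ m ≤ n ∧ n ≤ φ k) → SC h V W := by
  have h1 : ¬ Dom Φ := fun h => absurd (dd_le h) (not_le.2 hΦ)
  unfold Dom at h1
  push Not at h1
  obtain ⟨h0, hh⟩ := h1
  refine ⟨up h0, fun φ hφ V W ⟨K, hK⟩ => ?_⟩
  apply Set.infinite_of_forall_exists_gt
  intro b
  obtain ⟨k, hk, hlt⟩ := hh φ hφ (max K (b + 1))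
  obtain ⟨m, n, a1, a2, a3, a4, a5⟩ := hK k ((le_max_left _ _).trans hk)
  have a6 : b + 1 ≤ k := (le_max_right _ _).trans hk
  refine ⟨m, ⟨a2, n, a3, a4, ?_⟩, by omega⟩
  exact a5.trans (hlt.le.trans (le_up h0 a1))

open Classical in
/-- the next element of `S` -/
noncomputable def nx (S : Set ℕ) (k : ℕ) : ℕ := if h : ∃ m, k ≤ m ∧ m ∈ S then Nat.find h else k

theorem nx_spec {S : Set ℕ} (h : S.Infinite) (k : ℕ) : k ≤ nx S k ∧ nx S k ∈ S := by
  classical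
  have h1 : ∃ m, k ≤ m ∧ m ∈ S := by
    obtain ⟨m, hm, hkm⟩ := h.exists_gt k
    exact ⟨m, hkm.le, hm⟩
  unfold nx
  rw [dif_pos h1]
  exact Nat.find_spec h1

/-- the index set -/
abbrev II : Type := (dd.ord).ToType

theorem mk_II : #II = dd := mk_ord_toType dd

theorem mk_Iic_lt (i : II) : #{j : II | j ≤ i} < dd := by
  have h1 : {j : II | j ≤ i} = {j : II | j < i} ∪ {i} := by
    ext j
    simp only [mem_ofPred_eq, mem_union, mem_singleton_iff]
    exact le_iff_lt_or_eq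
  have h2 : #{j : II | j < i} < dd := by
    have h3 := Ordinal.typein_lt_self i
    rw [Cardinal.lt_ord] at h3
    exact h3
  rw [h1]
  refine lt_of_le_of_lt (mk_union_le _ _) ?_
  rw [mk_singleton]
  exact Cardinal.add_lt_of_lt aleph0_le_dd h2 (lt_of_lt_of_le one_lt_aleph0 aleph0_le_dd)

theorem exists_gI : ∃ gI : II → ℕ → ℕ, ∀ f : ℕ → ℕ, ∃ i, ∃ k, ∀ n, k ≤ n → f n ≤ gI i n := by
  obtain ⟨F, hF, hFd⟩ := exists_dom
  rw [← mk_II] at hFd
  obtain ⟨e⟩ := Cardinal.eq.1 hFd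
  refine ⟨fun i => (e.symm i).1, fun f => ?_⟩
  obtain ⟨g, hg, k, hk⟩ := hF f
  refine ⟨e ⟨g, hg⟩, k, fun n hn => ?_⟩
  simp only [Equiv.symm_apply_apply]
  exact hk n hn

theorem nonempty_II : Nonempty II := by
  rw [← Cardinal.mk_ne_zero_iff, mk_II]
  exact (lt_of_lt_of_le aleph0_pos aleph0_le_dd).ne'

/-- indices on a set of size at most `𝔡` -/
theorem exists_idx (X : Set (Set ℕ)) (hX : #X ≤ dd) : ∃ i : Set ℕ → II, InjOn i X := by
  classical
  rw [← mk_II] at hX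
  obtain ⟨e⟩ := hX
  obtain ⟨i0⟩ := nonempty_II
  refine ⟨fun a => if h : a ∈ X then e ⟨a, h⟩ else i0, fun a ha b hb hab => ?_⟩
  simp only [dif_pos ha, dif_pos hb] at hab
  exact congrArg Subtype.val (e.injective hab)

theorem mk_idx_lt {X : Set (Set ℕ)} {i : Set ℕ → II} (hi : InjOn i X) (j : II) :
    #{a | a ∈ X ∧ i a ≤ j} < dd := by
  refine lt_of_le_of_lt ?_ (mk_Iic_lt j)
  refine Cardinal.mk_le_of_injective (f := fun a : {a | a ∈ X ∧ i a ≤ j} => (⟨i a.1, a.2.2⟩ :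
    {l : II | l ≤ j})) ?_
  intro a b hab
  have h1 : i a.1 = i b.1 := congrArg Subtype.val hab
  exact Subtype.ext (hi a.2.1 b.2.1 h1)

/-- connected components of a relation with few neighbours -/
theorem mk_comp_le {α : Type} {r : α → α → Prop} {κ : Cardinal.{0}} (hκ : ℵ₀ ≤ κ)
    (h : ∀ a, #{b | r a b} ≤ κ) (a : α) : #{b | Relation.ReflTransGen r a b} ≤ κ := by
  let S : ℕ → Set α := fun n => Nat.rec {a} (fun _ s => ⋃ b ∈ s, {c | r b c}) n
  have hS : ∀ n, #(↥(S n)) ≤ κ := by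
    intro n
    induction n with
    | zero =>
      change #({a} : Set α) ≤ κ
      rw [mk_singleton]
      exact one_lt_aleph0.le.trans hκ
    | succ n ih =>
      change #(⋃ b ∈ S n, {c | r b c} : Set α) ≤ κ
      refine (Cardinal.mk_biUnion_le (fun b => {c | r b c}) (S n)).trans ?_
      calc #(↥(S n)) * ⨆ x : ↥(S n), #(↥{c | r x.1 c}) ≤ κ * κ := by
            refine mul_le_mul' ih ?_
            exact ciSup_le' fun x => h x.1
        _ = κ := Cardinal.mul_eq_self hκ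
  have hsub : {b | Relation.ReflTransGen r a b} ⊆ ⋃ n, S n := by
    intro b hb
    have hb' : Relation.ReflTransGen r a b := hb
    induction hb' with
    | refl => exact mem_iUnion.2 ⟨0, rfl⟩
    | tail h1 h2 ih =>
      obtain ⟨n, hn⟩ := mem_iUnion.1 (ih h1)
      exact mem_iUnion.2 ⟨n + 1, mem_iUnion₂.2 ⟨_, hn, h2⟩⟩
  refine (mk_le_mk_of_subset hsub).trans ((Cardinal.mk_iUnion_le S).trans ?_)
  calc #ℕ * ⨆ n, #(↥(S n)) ≤ κ * κ := by
        refine mul_le_mul' ?_ (ciSup_le' hS)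
        rw [Cardinal.mk_nat]
        exact hκ
    _ = κ := Cardinal.mul_eq_self hκ

end Pool.Agent.H60.BXP
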